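import Pool.Agent.H30.L.R_seed8.TH212.PS.P8
import Pool.Agent.H49.G.R_seed8.TH212.PS.P10
import Pool.Agent.H30.L.R_seed8.TH212.DV.C17

set_option autoImplicit false

/-! The polynomials describing the main term. -/

namespace Pool.Agent.TH212.PS
open Finset Polynomial
open Pool.Agent.H807R2.Dav
open Pool.Agent.TH212.DV

/-- the coefficients of the main term -/
noncomputable def Sij (P : ℕ → ℝ[X]) (h : ℤ) (i j : ℕ) : ℝ := ∑' q : ℕ, (cz q h : ℝ) * ((P q).coeff i * (P q).coeff j)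

/-- the polynomials of the main term -/
noncomputable def Th (t : ℕ) (P : ℕ → ℝ[X]) (h : ℤ) : ℝ[X] :=
  ∑ i ∈ range (t + 2), ∑ j ∈ range (t + 2), C (Sij P h i j) * Lk (i + j)

lemma coeff_prod (t : ℕ) (P : ℕ → ℝ[X]) (hP : HW t P) : ∃ K : ℝ, 0 ≤ K ∧ ∀ i j q : ℕ, 1 ≤ q →
    |(P q).coeff i * (P q).coeff j| ≤ K * (q : ℝ) ^ (-(7 / 4) : ℝ) := by
  obtain ⟨C, hC, h⟩ := coeff_bound t P hP (1 / 8) (by norm_num)
  refine ⟨C * C, by positivity, fun i j q hq => ?_⟩
  have hq0 : (0 : ℝ) < q := by exact_mod_cast hq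
  rw [abs_mul]
  calc |(P q).coeff i| * |(P q).coeff j| ≤ (C * (q : ℝ) ^ ((1 / 8 : ℝ) - 1)) * (C * (q : ℝ) ^ ((1 / 8 : ℝ) - 1)) :=
        mul_le_mul (h q hq i) (h q hq j) (abs_nonneg _) (by positivity)
    _ = C * C * ((q : ℝ) ^ ((1 / 8 : ℝ) - 1) * (q : ℝ) ^ ((1 / 8 : ℝ) - 1)) := by ring
    _ = _ := by rw [← Real.rpow_add hq0]; norm_num

lemma Sij_bound (t : ℕ) (P : ℕ → ℝ[X]) (hP : HW t P) : ∃ K : ℝ, 0 ≤ K ∧ ∀ h : ℤ, h ≠ 0 → ∀ i j : ℕ,
    Summable (fun q : ℕ => (cz q h : ℝ) * ((P q).coeff i * (P q).coeff j)) ∧ |Sij P h i j| ≤ K * sg h.natAbs := by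
  obtain ⟨K, hK, hk⟩ := coeff_prod t P hP
  obtain ⟨Z, hZ, hT⟩ := tail_gen
  refine ⟨K * (1 + Z), by positivity, fun h hh i j => ?_⟩
  have hH1 : 1 ≤ h.natAbs := by omega
  obtain ⟨g1, g2⟩ := hT h.natAbs hH1 (fun q => (P q).coeff i * (P q).coeff j) K hK (fun q hq => hk i j q hq)
  have g3 := g2 1 le_rfl
  unfold Sij
  simp only [cz_natAbs _ h]
  refine ⟨g1, ?_⟩
  rw [Icc_self, sum_singleton, Nat.cast_one, Real.one_rpow, mul_one] at g3
  have g4 : |(cz 1 (h.natAbs : ℤ) : ℝ) * ((P 1).coeff i * (P 1).coeff j)| ≤ K := by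
    rw [abs_mul]
    have c1 := abs_cz_le 1 le_rfl (h.natAbs : ℤ)
    have c2 := hk i j 1 le_rfl
    rw [Nat.cast_one, Real.one_rpow, mul_one] at c2
    rw [Nat.cast_one] at c1
    calc |(cz 1 (h.natAbs : ℤ) : ℝ)| * |(P 1).coeff i * (P 1).coeff j| ≤ 1 * K := mul_le_mul c1 c2 (abs_nonneg _) (by norm_num)
      _ = K := one_mul _
  have g5 := one_le_sg h.natAbs hH1
  have g6 := abs_le.1 g3
  have g7 := abs_le.1 g4
  have g8 : K ≤ K * sg h.natAbs := le_mul_of_one_le_right hK g5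
  rw [abs_le]
  constructor <;> nlinarith [g6.1, g6.2, g7.1, g7.2]

/-- the series in terms of the coefficients -/
lemma series_eq (t : ℕ) (P : ℕ → ℝ[X]) (hP : HW t P) (h : ℤ) (hh : h ≠ 0) (u v : ℝ) :
    ∑' q : ℕ, (cz q h : ℝ) * ((P q).eval u * (P q).eval v) =
      ∑ i ∈ range (t + 2), ∑ j ∈ range (t + 2), Sij P h i j * (u ^ i * v ^ j) := by
  obtain ⟨K, _, hS⟩ := Sij_bound t P hP
  have e1 : ∀ q : ℕ, (cz q h : ℝ) * ((P q).eval u * (P q).eval v) =
      ∑ i ∈ range (t + 2), ∑ j ∈ range (t + 2), ((cz q h : ℝ) * ((P q).coeff i * (P q).coeff j)) * (u ^ i * v ^ j) := by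
    intro q
    rw [Polynomial.eval_eq_sum_range' (lt_of_le_of_lt (hP.deg q) (Nat.lt_succ_self (t + 1))),
      Polynomial.eval_eq_sum_range' (lt_of_le_of_lt (hP.deg q) (Nat.lt_succ_self (t + 1))), sum_mul_sum, mul_sum]
    apply sum_congr rfl
    intro i _
    rw [mul_sum]
    apply sum_congr rfl
    intro j _
    ring
  have hs : ∀ i j : ℕ, Summable (fun q : ℕ => ((cz q h : ℝ) * ((P q).coeff i * (P q).coeff j)) * (u ^ i * v ^ j)) :=
    fun i j => (hS h hh i j).1.mul_right _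
  rw [tsum_congr e1, Summable.tsum_finsetSum (fun i _ => summable_sum fun j _ => hs i j)]
  apply sum_congr rfl
  intro i _
  rw [Summable.tsum_finsetSum (fun j _ => hs i j)]
  apply sum_congr rfl
  intro j _
  rw [tsum_mul_right]
  rfl

/-- the differential equation -/
lemma Th_eq (t : ℕ) (P : ℕ → ℝ[X]) (hP : HW t P) (h : ℤ) (hh : h ≠ 0) (u : ℝ) :
    (Th t P h).eval u + (derivative (Th t P h)).eval u = ∑' q : ℕ, (cz q h : ℝ) * ((P q).eval u * (P q).eval u) := by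
  rw [series_eq t P hP h hh u u, ← eval_add]
  have e : Th t P h + derivative (Th t P h) = ∑ i ∈ range (t + 2), ∑ j ∈ range (t + 2), C (Sij P h i j) * X ^ (i + j) := by
    unfold Th
    rw [derivative_sum, ← sum_add_distrib]
    apply sum_congr rfl
    intro i _
    rw [derivative_sum, ← sum_add_distrib]
    apply sum_congr rfl
    intro j _
    rw [derivative_C_mul, ← mul_add, Lk_eq]
  rw [e, eval_finsetSum]
  apply sum_congr rfl
  intro i _
  rw [eval_finsetSum]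
  apply sum_congr rfl
  intro j _
  rw [eval_mul, eval_C, eval_pow, eval_X, pow_add]

lemma Th_deg (t : ℕ) (P : ℕ → ℝ[X]) (h : ℤ) : (Th t P h).natDegree ≤ 2 * t + 2 := by
  unfold Th
  apply natDegree_sum_le_of_forall_le
  intro i hi
  apply natDegree_sum_le_of_forall_le
  intro j hj
  rw [mem_range] at hi hj
  exact (natDegree_C_mul_le _ _).trans ((Lk_deg _).trans (by omega))

lemma Th_lead (t : ℕ) (P : ℕ → ℝ[X]) (h : ℤ) : (Th t P h).coeff (2 * t + 2) = Sij P h (t + 1) (t + 1) := by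
  unfold Th
  rw [finsetSum_coeff]
  have e1 : ∀ i ∈ range (t + 2), i ≠ t + 1 → (∑ j ∈ range (t + 2), C (Sij P h i j) * Lk (i + j)).coeff (2 * t + 2) = 0 := by
    intro i hi hne
    rw [mem_range] at hi
    rw [finsetSum_coeff]
    apply sum_eq_zero
    intro j hj
    rw [mem_range] at hj
    rw [coeff_C_mul, coeff_eq_zero_of_natDegree_lt (lt_of_le_of_lt (Lk_deg _) (by omega)), mul_zero]
  rw [sum_eq_single_of_mem (t + 1) (mem_range.2 (by omega)) e1, finsetSum_coeff]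
  have e2 : ∀ j ∈ range (t + 2), j ≠ t + 1 → (C (Sij P h (t + 1) j) * Lk (t + 1 + j)).coeff (2 * t + 2) = 0 := by
    intro j hj hne
    rw [mem_range] at hj
    rw [coeff_C_mul, coeff_eq_zero_of_natDegree_lt (lt_of_le_of_lt (Lk_deg _) (by omega)), mul_zero]
  rw [sum_eq_single_of_mem (t + 1) (mem_range.2 (by omega)) e2, coeff_C_mul]
  have e3 : 2 * t + 2 = t + 1 + (t + 1) := by ring
  rw [e3, Lk_coeff, mul_one]

/-- the leading coefficient -/
lemma Sij_lead (t : ℕ) (P : ℕ → ℝ[X]) (hl : ∀ q, 1 ≤ q → (P q).coeff (t + 1) = kap (t + 1) q / ((t + 1).factorial : ℝ)) (h : ℤ) :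
    Sij P h (t + 1) (t + 1) = Sing (t + 1) h.natAbs / ((t + 1).factorial : ℝ) ^ 2 := by
  unfold Sij Sing
  rw [← tsum_div_const]
  apply tsum_congr
  intro q
  rw [cz_natAbs q h]
  rcases Nat.eq_zero_or_pos q with h0 | h0
  · rw [h0, cz_zero_left]; simp
  · rw [hl q h0]
    ring

theorem Th_full (t : ℕ) (P : ℕ → ℝ[X]) (hl : ∀ q, 1 ≤ q → (P q).coeff (t + 1) = kap (t + 1) q / ((t + 1).factorial : ℝ)) (h : ℤ) (hh : h ≠ 0) :
    (Th t P h).natDegree = 2 * t + 2 ∧ (Th t P h).leadingCoeff = Sing (t + 1) h.natAbs / ((t + 1).factorial : ℝ) ^ 2 := by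
  obtain ⟨c, hc, h1⟩ := sing_pos t
  have h2 := h1 h.natAbs (by omega)
  have e : (Th t P h).coeff (2 * t + 2) = Sing (t + 1) h.natAbs / ((t + 1).factorial : ℝ) ^ 2 := by
    rw [Th_lead, Sij_lead t P hl h]
  have hne : (Th t P h).coeff (2 * t + 2) ≠ 0 := by
    rw [e]
    have : 0 < Sing (t + 1) h.natAbs := lt_of_lt_of_le hc h2
    positivity
  have hd : (Th t P h).natDegree = 2 * t + 2 := le_antisymm (Th_deg t P h) (le_natDegree_of_ne_zero hne)
  refine ⟨hd, ?_⟩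
  unfold leadingCoeff
  rw [hd, e]

/-- the main term for small shifts -/
theorem small_shift (t : ℕ) (P : ℕ → ℝ[X]) (hP : HW t P) (η : ℝ) (hη : 0 < η) (hη1 : η ≤ 1) : ∃ N₀ : ℕ, ∀ N : ℕ, N₀ ≤ N → ∀ h : ℤ, h ≠ 0 →
    (|h| : ℝ) ≤ (N : ℝ) ^ (1 - η) → ∀ x : ℕ, x ≤ N → |Mf P x h - x * (Th t P h).eval (Real.log x)| ≤ (N : ℝ) ^ (1 - η / 4) := by
  obtain ⟨KS, hKS, hS⟩ := Sij_bound t P hP
  choose cc hcc0 hcc using sum_log_pow
  obtain ⟨cm, hcm⟩ : ∃ cm : ℝ, cm = ∑ i ∈ range (t + 2), ∑ j ∈ range (t + 2), cc (i + j) := ⟨_, rfl⟩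
  have hcm0 : 0 ≤ cm := by rw [hcm]; exact sum_nonneg fun i _ => sum_nonneg fun j _ => hcc0 _
  obtain ⟨ε, hε⟩ : ∃ ε : ℝ, ε = η / 32 := ⟨_, rfl⟩
  have hε0 : 0 < ε := by rw [hε]; positivity
  obtain ⟨n1, h1⟩ := pt_dk 2 ε hε0
  obtain ⟨n2, h2⟩ := ev_pow 0 KS ε hε0
  obtain ⟨n3, h3⟩ := ev_pow (2 * t + 2) (4 * ((t : ℝ) + 2) ^ 2 * (t + 2) * 3 ^ (2 * t + 2) * (1 + cm)) ε hε0
  obtain ⟨n4, h4⟩ := ev_log 1
  obtain ⟨n5, h5⟩ := ev_pow 0 10 ε hε0
  refine ⟨n1 + n2 + n3 + n4 + n5 + 2, fun N hN h hh hhN x hx => ?_⟩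
  have a2 := h2 N (by omega)
  have a3 := h3 N (by omega)
  have a4 := h4 N (by omega)
  have a5 := h5 N (by omega)
  rw [pow_zero, mul_one] at a2 a5
  have hN0 : (0 : ℝ) < N := by exact_mod_cast (by omega : 0 < N)
  have hN1 : (1 : ℝ) ≤ N := by exact_mod_cast (by omega : 1 ≤ N)
  have ht0 : (0 : ℝ) ≤ t := Nat.cast_nonneg t
  obtain ⟨K, hK⟩ : ∃ K : ℝ, K = (N : ℝ) ^ ε := ⟨_, rfl⟩
  rw [← hK] at a2 a3 a5
  have hK0 : 0 < K := by rw [hK]; positivity
  have hK1 : 1 ≤ K := by linarith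
  have hhN' : |h| ≤ (N : ℤ) := by
    have g1 : (N : ℝ) ^ (1 - η) ≤ N := by
      calc (N : ℝ) ^ (1 - η) ≤ (N : ℝ) ^ (1 : ℝ) := Real.rpow_le_rpow_of_exponent_le hN1 (by linarith)
        _ = _ := Real.rpow_one _
    have g2 : ((|h| : ℤ) : ℝ) ≤ ((N : ℤ) : ℝ) := by
      rw [Int.cast_abs]
      push_cast
      exact hhN.trans g1
    exact_mod_cast g2
  have hhb := abs_le.1 hhN'
  have hsg : sg h.natAbs ≤ K := by
    have g : ((h.natAbs : ℕ) : ℤ) ≤ N := by rw [Int.natCast_natAbs]; exact hhN'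
    rw [hK]
    exact (sg_le _).trans (h1 N (by omega) h.natAbs (by omega) (by omega))
  have hSK : ∀ i j, |Sij P h i j| ≤ K * K := by
    intro i j
    exact ((hS h hh i j).2).trans (mul_le_mul a2 hsg (sg_nonneg _) hK0.le)
  -- logarithms
  obtain ⟨Λ, hΛ⟩ : ∃ Λ : ℝ, Λ = 3 * Real.log N := ⟨_, rfl⟩
  have hΛ1 : 1 ≤ Λ := by rw [hΛ]; linarith
  have hlog : ∀ n : ℕ, 1 ≤ n → n ≤ 2 * N → 0 ≤ Real.log n ∧ Real.log n ≤ Λ := by
    intro n hn hn2
    refine ⟨Real.log_natCast_nonneg n, ?_⟩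
    have g1 : Real.log n ≤ Real.log (2 * N) := Real.log_le_log (by exact_mod_cast hn) (by exact_mod_cast hn2)
    rw [Real.log_mul (by norm_num) hN0.ne'] at g1
    have := Real.log_two_lt_d9
    rw [hΛ]
    linarith
  have hΛp : 4 * ((t : ℝ) + 2) ^ 2 * (t + 2) * (1 + cm) * Λ ^ (2 * t + 2) ≤ K := by
    rw [hΛ, mul_pow]
    refine le_trans (le_of_eq ?_) a3
    ring
  have hΛ0 : 0 ≤ Λ ^ (2 * t + 2) := by positivity
  have hΛge : 1 ≤ Λ ^ (2 * t + 2) := one_le_pow₀ hΛ1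
  have hΛK : 4 * ((t : ℝ) + 2) ^ 2 * (t + 2) * Λ ^ (2 * t + 2) ≤ K := by
    have : 4 * ((t : ℝ) + 2) ^ 2 * (t + 2) * Λ ^ (2 * t + 2) * 1 ≤ 4 * ((t : ℝ) + 2) ^ 2 * (t + 2) * Λ ^ (2 * t + 2) * (1 + cm) :=
      mul_le_mul_of_nonneg_left (by linarith) (by positivity)
    linarith
  have huv : ∀ u v : ℝ, 0 ≤ u → u ≤ Λ → 0 ≤ v → v ≤ Λ → ∀ i ∈ range (t + 2), ∀ j ∈ range (t + 2), |u ^ i * v ^ j| ≤ Λ ^ (2 * t + 2) := by
    intro u v hu0 hu hv0 hv i hi j hj
    rw [mem_range] at hi hj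
    rw [abs_of_nonneg (mul_nonneg (pow_nonneg hu0 _) (pow_nonneg hv0 _))]
    calc u ^ i * v ^ j ≤ Λ ^ i * Λ ^ j := mul_le_mul (pow_le_pow_left₀ hu0 hu i) (pow_le_pow_left₀ hv0 hv j) (pow_nonneg hv0 _) (by positivity)
      _ = Λ ^ (i + j) := by rw [pow_add]
      _ ≤ _ := pow_le_pow_right₀ hΛ1 (by omega)
  have hsumb : ∀ (a : ℕ → ℕ → ℝ) (b : ℝ), 0 ≤ b → (∀ i ∈ range (t + 2), ∀ j ∈ range (t + 2), |a i j| ≤ b) →
      |∑ i ∈ range (t + 2), ∑ j ∈ range (t + 2), Sij P h i j * a i j| ≤ ((t : ℝ) + 2) ^ 2 * (K * K * b) := by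
    intro a b hb hab
    refine (abs_sum_le_sum_abs _ _).trans ?_
    have g1 : ∀ i ∈ range (t + 2), |∑ j ∈ range (t + 2), Sij P h i j * a i j| ≤ ((t : ℝ) + 2) * (K * K * b) := by
      intro i hi
      refine (abs_sum_le_sum_abs _ _).trans ?_
      have g2 : ∀ j ∈ range (t + 2), |Sij P h i j * a i j| ≤ K * K * b := by
        intro j hj
        rw [abs_mul]
        exact mul_le_mul (hSK i j) (hab i hi j hj) (abs_nonneg _) (by positivity)
      refine (sum_le_sum g2).trans (le_of_eq ?_)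
      rw [sum_const, card_range, nsmul_eq_mul]
      push_cast
      ring
    refine (sum_le_sum g1).trans (le_of_eq ?_)
    rw [sum_const, card_range, nsmul_eq_mul]
    push_cast
    ring
  -- the terms
  obtain ⟨A, hA⟩ : ∃ A : ℕ → ℝ, A = fun n : ℕ => if 1 ≤ (n : ℤ) + h then
    ∑' q : ℕ, (cz q h : ℝ) * ((P q).eval (Real.log n) * (P q).eval (Real.log (((n : ℤ) + h).toNat : ℕ))) else 0 := ⟨_, rfl⟩
  obtain ⟨Bn, hBn⟩ : ∃ Bn : ℕ → ℝ, Bn = fun n : ℕ => ∑ i ∈ range (t + 2), ∑ j ∈ range (t + 2), Sij P h i j * (Real.log n ^ i * Real.log n ^ j) := ⟨_, rfl⟩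
  have hAB1 : ∀ n : ℕ, 1 ≤ n → n ≤ N → |A n - Bn n| ≤ K ^ 3 := by
    intro n hn hn2
    obtain ⟨l1, l2⟩ := hlog n hn (by omega)
    have g2 : |Bn n| ≤ ((t : ℝ) + 2) ^ 2 * (K * K * Λ ^ (2 * t + 2)) := by
      rw [hBn]
      exact hsumb (fun i j => Real.log n ^ i * Real.log n ^ j) _ hΛ0 (huv _ _ l1 l2 l1 l2)
    have g1 : |A n| ≤ ((t : ℝ) + 2) ^ 2 * (K * K * Λ ^ (2 * t + 2)) := by
      rw [hA]
      simp only
      split_ifs with hc
      · obtain ⟨l3, l4⟩ := hlog ((n : ℤ) + h).toNat (by omega) (by omega)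
        rw [series_eq t P hP h hh]
        exact hsumb (fun i j => Real.log n ^ i * Real.log (((n : ℤ) + h).toNat : ℕ) ^ j) _ hΛ0 (huv _ _ l1 l2 l3 l4)
      · rw [abs_zero]; positivity
    refine (abs_sub _ _).trans ?_
    have g3 : 2 * (((t : ℝ) + 2) ^ 2 * (K * K * Λ ^ (2 * t + 2))) ≤ K ^ 3 := by
      have g4 : 2 * ((t : ℝ) + 2) ^ 2 * Λ ^ (2 * t + 2) ≤ K := by
        refine le_trans ?_ hΛK
        have g5 : (0 : ℝ) ≤ ((t : ℝ) + 2) ^ 2 * Λ ^ (2 * t + 2) := by positivity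
        nlinarith
      calc 2 * (((t : ℝ) + 2) ^ 2 * (K * K * Λ ^ (2 * t + 2))) = (K * K) * (2 * ((t : ℝ) + 2) ^ 2 * Λ ^ (2 * t + 2)) := by ring
        _ ≤ (K * K) * K := mul_le_mul_of_nonneg_left g4 (by positivity)
        _ = _ := by ring
    linarith
  have hAB2 : ∀ n : ℕ, 1 ≤ n → n ≤ N → (N : ℝ) ^ (1 - η / 2) ≤ n → |A n - Bn n| ≤ K ^ 3 * (N : ℝ) ^ (-(η / 2)) := by
    intro n hn hn2 hnl
    obtain ⟨l1, l2⟩ := hlog n hn (by omega)
    have hn0 : (0 : ℝ) < n := by exact_mod_cast hn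
    have hNη : 10 ≤ (N : ℝ) ^ (η / 2) := by
      refine a5.trans ?_
      rw [hK]
      exact Real.rpow_le_rpow_of_exponent_le hN1 (by rw [hε]; linarith)
    have hhn : (|h| : ℝ) ≤ n * (N : ℝ) ^ (-(η / 2)) := by
      refine hhN.trans ?_
      calc (N : ℝ) ^ (1 - η) = (N : ℝ) ^ (1 - η / 2) * (N : ℝ) ^ (-(η / 2)) := by rw [← Real.rpow_add hN0]; congr 1; ring
        _ ≤ _ := mul_le_mul_of_nonneg_right hnl (by positivity)
    have hNm : (N : ℝ) ^ (-(η / 2)) ≤ 1 / 10 := by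
      rw [Real.rpow_neg hN0.le, ← one_div]
      exact one_div_le_one_div_of_le (by norm_num) hNη
    have hhn2 : (|h| : ℝ) ≤ n / 10 := by
      have q1 := mul_le_mul_of_nonneg_left hNm hn0.le
      linarith
    have hhr := abs_le.1 hhn2
    have hc : 1 ≤ (n : ℤ) + h := by
      have : (0 : ℝ) < (n : ℝ) + h := by linarith [hhr.1]
      have g : (0 : ℤ) < (n : ℤ) + h := by exact_mod_cast this
      omega
    obtain ⟨m, hm⟩ : ∃ m : ℕ, m = ((n : ℤ) + h).toNat := ⟨_, rfl⟩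
    have hmz : (m : ℤ) = (n : ℤ) + h := by omega
    have hmr : (m : ℝ) = (n : ℝ) + h := by exact_mod_cast hmz
    obtain ⟨l3, l4⟩ := hlog m (by omega) (by omega)
    have hm0 : (0 : ℝ) < m := by rw [hmr]; linarith [hhr.1]
    have hlogd : |Real.log m - Real.log n| ≤ 2 * (N : ℝ) ^ (-(η / 2)) := by
      have k1 : Real.log m - Real.log n ≤ 2 * (N : ℝ) ^ (-(η / 2)) := by
        rw [← Real.log_div hm0.ne' hn0.ne']
        refine (Real.log_le_sub_one_of_pos (by positivity)).trans ?_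
        rw [hmr, add_div, div_self hn0.ne', add_sub_cancel_left]
        calc (h : ℝ) / n ≤ |(h : ℝ)| / n := div_le_div_of_nonneg_right (le_abs_self _) hn0.le
          _ ≤ (N : ℝ) ^ (-(η / 2)) := by rw [div_le_iff₀ hn0]; linarith
          _ ≤ _ := by linarith [Real.rpow_nonneg hN0.le (-(η / 2))]
      have k2 : Real.log n - Real.log m ≤ 2 * (N : ℝ) ^ (-(η / 2)) := by
        rw [← Real.log_div hn0.ne' hm0.ne']
        refine (Real.log_le_sub_one_of_pos (by positivity)).trans ?_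
        have e3 : (n : ℝ) / m - 1 = -h / m := by
          rw [hmr] at hm0 ⊢
          field_simp
          ring
        rw [e3]
        have hm9 : (n : ℝ) / 2 ≤ m := by rw [hmr]; linarith [hhr.1]
        calc -(h : ℝ) / m ≤ |(h : ℝ)| / m := div_le_div_of_nonneg_right (neg_le_abs _) hm0.le
          _ ≤ 2 * (N : ℝ) ^ (-(η / 2)) := by
              rw [div_le_iff₀ hm0]
              have : (N : ℝ) ^ (-(η / 2)) * (n / 2) ≤ (N : ℝ) ^ (-(η / 2)) * m := mul_le_mul_of_nonneg_left hm9 (by positivity)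
              linarith
      rw [abs_le]
      constructor <;> linarith
    have e4 : A n - Bn n = ∑ i ∈ range (t + 2), ∑ j ∈ range (t + 2), Sij P h i j *
        (Real.log n ^ i * Real.log m ^ j - Real.log n ^ i * Real.log n ^ j) := by
      rw [hA, hBn]
      simp only
      rw [if_pos hc, series_eq t P hP h hh, ← hm, ← sum_sub_distrib]
      apply sum_congr rfl
      intro i _
      rw [← sum_sub_distrib]
      apply sum_congr rfl
      intro j _
      ring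
    rw [e4]
    refine (hsumb _ (((t : ℝ) + 2) * Λ ^ (2 * t + 2) * (2 * (N : ℝ) ^ (-(η / 2)))) (by positivity) ?_).trans ?_
    · intro i hi j hj
      rw [mem_range] at hi hj
      rw [← mul_sub, abs_mul, abs_of_nonneg (pow_nonneg l1 i)]
      have g1 : |Real.log m ^ j - Real.log n ^ j| ≤ ((t : ℝ) + 2) * Λ ^ (t + 1) * (2 * (N : ℝ) ^ (-(η / 2))) := by
        have g2 := abs_pow_sub_pow_le (Real.log m) (Real.log n) j
        refine g2.trans ?_
        have g3 : max |Real.log m| |Real.log n| ^ (j - 1) ≤ Λ ^ (t + 1) := by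
          calc max |Real.log m| |Real.log n| ^ (j - 1) ≤ Λ ^ (j - 1) := by
                apply pow_le_pow_left₀ (le_max_of_le_left (abs_nonneg _))
                rw [abs_of_nonneg l3, abs_of_nonneg l1]
                exact max_le l4 l2
            _ ≤ _ := pow_le_pow_right₀ hΛ1 (by omega)
        have g4 : (j : ℝ) ≤ (t : ℝ) + 2 := by exact_mod_cast (by omega : j ≤ t + 2)
        calc |Real.log m - Real.log n| * j * max |Real.log m| |Real.log n| ^ (j - 1) ≤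
              (2 * (N : ℝ) ^ (-(η / 2))) * ((t : ℝ) + 2) * Λ ^ (t + 1) := by
              apply mul_le_mul _ g3 (by positivity) (by positivity)
              exact mul_le_mul hlogd g4 (Nat.cast_nonneg _) (by positivity)
          _ = _ := by ring
      have g5 : Real.log n ^ i ≤ Λ ^ (t + 1) := (pow_le_pow_left₀ l1 l2 i).trans (pow_le_pow_right₀ hΛ1 (by omega))
      calc Real.log n ^ i * |Real.log m ^ j - Real.log n ^ j| ≤ Λ ^ (t + 1) * (((t : ℝ) + 2) * Λ ^ (t + 1) * (2 * (N : ℝ) ^ (-(η / 2)))) :=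
            mul_le_mul g5 g1 (abs_nonneg _) (by positivity)
        _ = _ := by
            rw [show 2 * t + 2 = (t + 1) + (t + 1) by ring, pow_add]
            ring
    · calc ((t : ℝ) + 2) ^ 2 * (K * K * (((t : ℝ) + 2) * Λ ^ (2 * t + 2) * (2 * (N : ℝ) ^ (-(η / 2))))) =
            (K * K * (N : ℝ) ^ (-(η / 2))) * (2 * ((t : ℝ) + 2) ^ 2 * (t + 2) * Λ ^ (2 * t + 2)) := by ring
        _ ≤ (K * K * (N : ℝ) ^ (-(η / 2))) * K := by
            apply mul_le_mul_of_nonneg_left _ (by positivity)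
            refine le_trans ?_ hΛK
            have : (0 : ℝ) ≤ ((t : ℝ) + 2) ^ 2 * (t + 2) * Λ ^ (2 * t + 2) := by positivity
            nlinarith
        _ = _ := by ring
  -- the sum of the differences
  have hsum1 : |Mf P x h - ∑ n ∈ Icc 1 x, Bn n| ≤ 3 * K ^ 3 * (N : ℝ) ^ (1 - η / 2) := by
    have e5 : Mf P x h = ∑ n ∈ Icc 1 x, A n := by unfold Mf; rw [hA]
    rw [e5, ← sum_sub_distrib]
    refine (abs_sum_le_sum_abs _ _).trans ?_
    obtain ⟨R, hR⟩ : ∃ R : ℕ, R = ⌈(N : ℝ) ^ (1 - η / 2)⌉₊ := ⟨_, rfl⟩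
    have hR1 : (N : ℝ) ^ (1 - η / 2) ≤ R := by rw [hR]; exact Nat.le_ceil _
    have hNη1 : 1 ≤ (N : ℝ) ^ (1 - η / 2) := Real.one_le_rpow hN1 (by linarith)
    have hR2 : (R : ℝ) ≤ 2 * (N : ℝ) ^ (1 - η / 2) := by
      have := (Nat.ceil_lt_add_one (by positivity : 0 ≤ (N : ℝ) ^ (1 - η / 2))).le
      rw [← hR] at this
      linarith
    have g1 : ∀ n ∈ Icc 1 x, |A n - Bn n| ≤ K ^ 3 * (N : ℝ) ^ (-(η / 2)) + (if n < R then K ^ 3 else 0) := by
      intro n hn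
      rw [mem_Icc] at hn
      split_ifs with hc
      · have := hAB1 n hn.1 (hn.2.trans hx)
        have h0 : 0 ≤ K ^ 3 * (N : ℝ) ^ (-(η / 2)) := by positivity
        linarith
      · rw [add_zero]
        apply hAB2 n hn.1 (hn.2.trans hx)
        refine hR1.trans ?_
        exact_mod_cast (by omega : R ≤ n)
    refine (sum_le_sum g1).trans ?_
    rw [sum_add_distrib, sum_const, Nat.card_Icc, nsmul_eq_mul, Nat.add_sub_cancel, ← sum_filter, sum_const, nsmul_eq_mul]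
    have c1 : (((Icc 1 x).filter (fun n => n < R)).card : ℝ) ≤ R := by
      have : ((Icc 1 x).filter (fun n => n < R)).card ≤ (range R).card := card_le_card (by
        intro n hn
        rw [mem_filter] at hn
        exact mem_range.2 hn.2)
      rw [card_range] at this
      exact_mod_cast this
    have hxr : (x : ℝ) ≤ N := by exact_mod_cast hx
    have d1 : (x : ℝ) * (K ^ 3 * (N : ℝ) ^ (-(η / 2))) ≤ K ^ 3 * (N : ℝ) ^ (1 - η / 2) := by
      calc (x : ℝ) * (K ^ 3 * (N : ℝ) ^ (-(η / 2))) ≤ N * (K ^ 3 * (N : ℝ) ^ (-(η / 2))) := mul_le_mul_of_nonneg_right hxr (by positivity)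
        _ = K ^ 3 * ((N : ℝ) ^ (1 : ℝ) * (N : ℝ) ^ (-(η / 2))) := by rw [Real.rpow_one]; ring
        _ = _ := by rw [← Real.rpow_add hN0]; congr 2
    have d2 : (((Icc 1 x).filter (fun n => n < R)).card : ℝ) * K ^ 3 ≤ 2 * (N : ℝ) ^ (1 - η / 2) * K ^ 3 :=
      mul_le_mul_of_nonneg_right (c1.trans hR2) (by positivity)
    linarith
  -- the sum of the powers of logarithms
  have hsum2 : |∑ n ∈ Icc 1 x, Bn n - x * (Th t P h).eval (Real.log x)| ≤ K ^ 3 := by
    rcases Nat.eq_zero_or_pos x with hx0 | hx0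
    · rw [hx0]
      simp
      positivity
    · obtain ⟨l1, l2⟩ := hlog x hx0 (by omega)
      have e6 : ∑ n ∈ Icc 1 x, Bn n - x * (Th t P h).eval (Real.log x) = ∑ i ∈ range (t + 2), ∑ j ∈ range (t + 2), Sij P h i j *
          (∑ n ∈ Icc 1 x, Real.log n ^ (i + j) - x * (Lk (i + j)).eval (Real.log x)) := by
        rw [hBn]
        unfold Th
        rw [eval_finsetSum, sum_comm, mul_sum, ← sum_sub_distrib]
        apply sum_congr rfl
        intro i _
        rw [sum_comm, eval_finsetSum, mul_sum, ← sum_sub_distrib]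
        apply sum_congr rfl
        intro j _
        rw [eval_mul, eval_C, mul_sub, mul_sum]
        congr 1
        · apply sum_congr rfl
          intro n _
          rw [pow_add]
        · ring
      rw [e6]
      refine (hsumb _ ((1 + cm) * Λ ^ (2 * t + 2)) (by positivity) ?_).trans ?_
      · intro i hi j hj
        refine (hcc (i + j) x hx0).trans ?_
        have g1 : cc (i + j) ≤ cm := by
          rw [hcm]
          have q1 := single_le_sum (f := fun j => cc (i + j)) (fun j _ => hcc0 _) hj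
          have q2 := single_le_sum (f := fun i => ∑ j ∈ range (t + 2), cc (i + j)) (fun i _ => sum_nonneg fun j _ => hcc0 _) hi
          exact q1.trans q2
        rw [mem_range] at hi hj
        have g2 : Real.log x ^ (i + j) ≤ Λ ^ (2 * t + 2) := (pow_le_pow_left₀ l1 l2 _).trans (pow_le_pow_right₀ hΛ1 (by omega))
        nlinarith
      · calc ((t : ℝ) + 2) ^ 2 * (K * K * ((1 + cm) * Λ ^ (2 * t + 2))) = (K * K) * (((t : ℝ) + 2) ^ 2 * (1 + cm) * Λ ^ (2 * t + 2)) := by ring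
          _ ≤ (K * K) * K := by
              apply mul_le_mul_of_nonneg_left _ (by positivity)
              refine le_trans ?_ hΛp
              have : (0 : ℝ) ≤ ((t : ℝ) + 2) ^ 2 * (1 + cm) * Λ ^ (2 * t + 2) := by positivity
              nlinarith
          _ = _ := by ring
  calc |Mf P x h - x * (Th t P h).eval (Real.log x)| = |(Mf P x h - ∑ n ∈ Icc 1 x, Bn n) + (∑ n ∈ Icc 1 x, Bn n - x * (Th t P h).eval (Real.log x))| := by
        congr 1; ring
    _ ≤ 3 * K ^ 3 * (N : ℝ) ^ (1 - η / 2) + K ^ 3 := (abs_add_le _ _).trans (add_le_add hsum1 hsum2)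
    _ ≤ 4 * K ^ 3 * (N : ℝ) ^ (1 - η / 2) := by
        have g1 : 1 ≤ (N : ℝ) ^ (1 - η / 2) := Real.one_le_rpow hN1 (by linarith)
        have g2 : 0 ≤ K ^ 3 := by positivity
        nlinarith
    _ ≤ K * K ^ 3 * (N : ℝ) ^ (1 - η / 2) := by
        apply mul_le_mul_of_nonneg_right _ (by positivity)
        exact mul_le_mul_of_nonneg_right (by linarith) (by positivity)
    _ = (N : ℝ) ^ (4 * ε + (1 - η / 2)) := by
        rw [Real.rpow_add hN0, hK]
        congr 1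
        rw [← pow_succ', ← Real.rpow_natCast, ← Real.rpow_mul hN0.le]
        congr 1
        push_cast
        ring
    _ ≤ _ := by
        apply Real.rpow_le_rpow_of_exponent_le hN1
        rw [hε]
        linarith

end Pool.Agent.TH212.PS
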