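import Pool.Agent.H30.L.R_seed8.TH212.PS.P9
import Pool.Agent.H30.L.R_seed8.TH212.PS.P11

set_option autoImplicit false

/-! Power saving: the final form over families and polynomial values. -/

namespace Pool.Agent.TH212.PS
open Finset Polynomial
open Pool.Agent.H807R2.Dav
open Pool.Agent.TH212.DV
open Pool.Agent.TH212.PL (En poly_hyp)

/-- the two asymptotic formulas -/
def GoodP (t N : ℕ) (P : ℕ → ℝ[X]) (θ η : ℝ) (h : ℤ) : Prop := ∀ x : ℕ, x ≤ N → |Dr (t + 2) x h - Mf P x h| ≤ (N : ℝ) ^ (1 - θ) ∧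
  ((|h| : ℝ) ≤ (N : ℝ) ^ (1 - η) → |Dr (t + 2) x h - x * (Th t P h).eval (Real.log x)| ≤ (N : ℝ) ^ (1 - η / 8))

open Classical in
theorem fam_final (t : ℕ) (P : ℕ → ℝ[X]) (hP : HW t P) (p B : ℕ) : ∃ θ : ℝ, 0 < θ ∧ θ ≤ 1 ∧ ∀ η : ℝ, 0 < η → η ≤ θ → ∃ N₀ : ℕ,
    ∀ N : ℕ, N₀ ≤ N → ∀ (ι : Type) [Fintype ι] (v : ι → ℤ), (∀ i, |v i| ≤ B * N) →
    (En p v : ℝ) * N ≤ (N : ℝ) ^ θ * (Fintype.card ι : ℝ) ^ (2 * p) →
    ((univ.filter (fun i : ι => v i ≠ 0 ∧ ¬ GoodP t N P θ η (v i))).card : ℝ) ≤ (N : ℝ) ^ (-θ) * Fintype.card ι := by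
  obtain ⟨θ', hθ', n1, h1⟩ := main_P t P hP p B
  obtain ⟨θ, hθ⟩ : ∃ θ : ℝ, θ = min θ' 1 := ⟨_, rfl⟩
  have hθ0 : 0 < θ := by rw [hθ]; positivity
  have hθ1 : θ ≤ θ' := by rw [hθ]; exact min_le_left _ _
  have hθ2 : θ ≤ 1 := by rw [hθ]; exact min_le_right _ _
  refine ⟨θ, hθ0, hθ2, fun η hη hηθ => ?_⟩
  obtain ⟨n2, h2⟩ := small_shift t P hP η hη (hηθ.trans hθ2)
  obtain ⟨n3, h3⟩ := ev_pow 0 2 (η / 8) (by positivity)
  refine ⟨n1 + n2 + n3 + 1, fun N hN ι _ v hv hE => ?_⟩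
  have a3 := h3 N (by omega)
  rw [pow_zero, mul_one] at a3
  have hN0 : (0 : ℝ) < N := by exact_mod_cast (by omega : 0 < N)
  have hN1 : (1 : ℝ) ≤ N := by exact_mod_cast (by omega : 1 ≤ N)
  have key := h1 N (by omega) ι v hv (hE.trans (mul_le_mul_of_nonneg_right
    (Real.rpow_le_rpow_of_exponent_le hN1 hθ1) (by positivity)))
  have hsub : (univ.filter (fun i : ι => v i ≠ 0 ∧ ¬ GoodP t N P θ η (v i))) ⊆
      (univ.filter (fun i : ι => v i ≠ 0 ∧ ∃ x : ℕ, x ≤ N ∧ (N : ℝ) ^ (1 - θ') < |Dr (t + 2) x (v i) - Mf P x (v i)|)) := by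
    intro i hi
    rw [mem_filter] at hi ⊢
    refine ⟨mem_univ _, hi.2.1, ?_⟩
    by_contra hc
    push Not at hc
    apply hi.2.2
    intro x hx
    have b1 := hc x hx
    have c1 : (N : ℝ) ^ (1 - θ') ≤ (N : ℝ) ^ (1 - θ) := Real.rpow_le_rpow_of_exponent_le hN1 (by linarith)
    refine ⟨b1.trans c1, fun hh => ?_⟩
    have b2 := h2 N (by omega) (v i) hi.2.1 hh x hx
    have c2 : (N : ℝ) ^ (1 - θ') ≤ (N : ℝ) ^ (1 - η / 4) := Real.rpow_le_rpow_of_exponent_le hN1 (by linarith)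
    calc |Dr (t + 2) x (v i) - x * (Th t P (v i)).eval (Real.log x)| =
          |(Dr (t + 2) x (v i) - Mf P x (v i)) + (Mf P x (v i) - x * (Th t P (v i)).eval (Real.log x))| := by congr 1; ring
      _ ≤ (N : ℝ) ^ (1 - η / 4) + (N : ℝ) ^ (1 - η / 4) := (abs_add_le _ _).trans (add_le_add (b1.trans c2) b2)
      _ = 2 * (N : ℝ) ^ (1 - η / 4) := by ring
      _ ≤ (N : ℝ) ^ (η / 8) * (N : ℝ) ^ (1 - η / 4) := mul_le_mul_of_nonneg_right a3 (by positivity)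
      _ = _ := by rw [← Real.rpow_add hN0]; congr 1; ring
  have hcard : ((univ.filter (fun i : ι => v i ≠ 0 ∧ ¬ GoodP t N P θ η (v i))).card : ℝ) ≤
      ((univ.filter (fun i : ι => v i ≠ 0 ∧ ∃ x : ℕ, x ≤ N ∧ (N : ℝ) ^ (1 - θ') < |Dr (t + 2) x (v i) - Mf P x (v i)|)).card : ℝ) := by
    exact_mod_cast card_le_card hsub
  refine hcard.trans (key.trans ?_)
  exact mul_le_mul_of_nonneg_right (Real.rpow_le_rpow_of_exponent_le hN1 (by linarith)) (Nat.cast_nonneg _)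

lemma GoodP_mono (t N : ℕ) (P : ℕ → ℝ[X]) (θ θ' η : ℝ) (h : ℤ) (hN : 1 ≤ N) (hθ : θ' ≤ θ) (hg : GoodP t N P θ η h) : GoodP t N P θ' η h := by
  intro x hx
  have hN1 : (1 : ℝ) ≤ N := by exact_mod_cast hN
  exact ⟨(hg x hx).1.trans (Real.rpow_le_rpow_of_exponent_le hN1 (by linarith)), (hg x hx).2⟩

open Classical in
theorem poly_final (t : ℕ) (P : ℕ → ℝ[X]) (hP : HW t P) (f : ℤ[X]) (hf : 1 ≤ f.natDegree) (B : ℕ) : ∃ θ : ℝ, 0 < θ ∧ θ ≤ 1 ∧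
    ∀ η : ℝ, 0 < η → η ≤ θ → ∃ M₀ : ℕ, ∀ M : ℕ, M₀ ≤ M → ∀ N : ℕ, M ^ f.natDegree ≤ N →
    (N : ℝ) ≤ (M : ℝ) ^ ((1 + θ) * f.natDegree) → ∀ c : ℤ, |c| ≤ B * (M ^ f.natDegree : ℕ) →
    ((univ.filter (fun i : Fin M => c + f.eval (((i : ℕ) + 1 : ℕ) : ℤ) ≠ 0 ∧
      ¬ GoodP t N P θ η (c + f.eval (((i : ℕ) + 1 : ℕ) : ℤ)))).card : ℝ) ≤ (M : ℝ) ^ (1 - θ) := by
  obtain ⟨p, B', m0, hBB, hpoly⟩ := poly_hyp f hf B
  obtain ⟨θ, hθ, hθ1, h1⟩ := fam_final t P hP p B'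
  obtain ⟨n2, h2⟩ := ev_pow 1 1 (θ / 2) (by positivity)
  refine ⟨θ / 2, by positivity, by linarith, fun η hη hηθ => ?_⟩
  obtain ⟨n1, h3⟩ := h1 η hη (by linarith)
  refine ⟨m0 + n1 + n2 + 1, fun M hM N hMN hNM c hc => ?_⟩
  have hMk : M ≤ M ^ f.natDegree := Nat.le_self_pow (by omega) M
  obtain ⟨hb, hE⟩ := hpoly M (by omega) c hc
  have a2 := h2 N (by omega)
  rw [one_mul, pow_one] at a2
  have hM0 : (0 : ℝ) < M := by exact_mod_cast (by omega : 0 < M)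
  have hM1 : (1 : ℝ) ≤ M := by exact_mod_cast (by omega : 1 ≤ M)
  have hN0 : (0 : ℝ) < N := by exact_mod_cast (by omega : 0 < N)
  have hN1 : (1 : ℝ) ≤ N := by exact_mod_cast (by omega : 1 ≤ N)
  have hMNr : ((M ^ f.natDegree : ℕ) : ℝ) ≤ N := by exact_mod_cast hMN
  have hMk0 : (0 : ℝ) < ((M ^ f.natDegree : ℕ) : ℝ) := by exact_mod_cast (by omega : 0 < M ^ f.natDegree)
  have hratio : (N : ℝ) ≤ (N : ℝ) ^ (θ / 2) * ((M ^ f.natDegree : ℕ) : ℝ) := by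
    have e1 : (M : ℝ) ^ ((1 + θ / 2) * f.natDegree) = ((M ^ f.natDegree : ℕ) : ℝ) ^ (θ / 2) * ((M ^ f.natDegree : ℕ) : ℝ) := by
      push_cast
      rw [← Real.rpow_natCast, ← Real.rpow_mul hM0.le, ← Real.rpow_add hM0]
      congr 1
      ring
    rw [e1] at hNM
    refine hNM.trans ?_
    apply mul_le_mul_of_nonneg_right _ hMk0.le
    exact Real.rpow_le_rpow hMk0.le hMNr (by linarith)
  have hE' : (En p (fun i : Fin M => c + f.eval (((i : ℕ) + 1 : ℕ) : ℤ)) : ℝ) * N ≤ (N : ℝ) ^ θ * (Fintype.card (Fin M) : ℝ) ^ (2 * p) := by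
    have g1 : Real.log (M ^ f.natDegree : ℕ) ^ 1 ≤ (N : ℝ) ^ (θ / 2) := by
      rw [pow_one]
      exact (Real.log_le_log hMk0 hMNr).trans a2
    calc (En p (fun i : Fin M => c + f.eval (((i : ℕ) + 1 : ℕ) : ℤ)) : ℝ) * N ≤
          (En p (fun i : Fin M => c + f.eval (((i : ℕ) + 1 : ℕ) : ℤ)) : ℝ) * ((N : ℝ) ^ (θ / 2) * ((M ^ f.natDegree : ℕ) : ℝ)) :=
          mul_le_mul_of_nonneg_left hratio (Nat.cast_nonneg _)
      _ = (N : ℝ) ^ (θ / 2) * ((En p (fun i : Fin M => c + f.eval (((i : ℕ) + 1 : ℕ) : ℤ)) : ℝ) * ((M ^ f.natDegree : ℕ) : ℝ)) := by ring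
      _ ≤ (N : ℝ) ^ (θ / 2) * ((N : ℝ) ^ (θ / 2) * (Fintype.card (Fin M) : ℝ) ^ (2 * p)) := by
          apply mul_le_mul_of_nonneg_left _ (by positivity)
          exact hE.trans (mul_le_mul_of_nonneg_right g1 (by positivity))
      _ = ((N : ℝ) ^ (θ / 2) * (N : ℝ) ^ (θ / 2)) * (Fintype.card (Fin M) : ℝ) ^ (2 * p) := by ring
      _ = _ := by rw [← Real.rpow_add hN0]; congr 2; ring
  have hb' : ∀ i : Fin M, |c + f.eval (((i : ℕ) + 1 : ℕ) : ℤ)| ≤ B' * N := by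
    intro i
    refine (hb i).trans ?_
    have : B' * M ^ f.natDegree ≤ B' * N := Nat.mul_le_mul_left _ hMN
    exact_mod_cast this
  have key := h3 N (by omega) (Fin M) (fun i : Fin M => c + f.eval (((i : ℕ) + 1 : ℕ) : ℤ)) hb' hE'
  have hsub : (univ.filter (fun i : Fin M => c + f.eval (((i : ℕ) + 1 : ℕ) : ℤ) ≠ 0 ∧
      ¬ GoodP t N P (θ / 2) η (c + f.eval (((i : ℕ) + 1 : ℕ) : ℤ)))) ⊆
      (univ.filter (fun i : Fin M => c + f.eval (((i : ℕ) + 1 : ℕ) : ℤ) ≠ 0 ∧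
      ¬ GoodP t N P θ η (c + f.eval (((i : ℕ) + 1 : ℕ) : ℤ)))) := by
    intro i hi
    rw [mem_filter] at hi ⊢
    exact ⟨mem_univ _, hi.2.1, fun hg => hi.2.2 (GoodP_mono t N P θ (θ / 2) η _ (by omega) (by linarith) hg)⟩
  have hcard : ((univ.filter (fun i : Fin M => c + f.eval (((i : ℕ) + 1 : ℕ) : ℤ) ≠ 0 ∧
      ¬ GoodP t N P (θ / 2) η (c + f.eval (((i : ℕ) + 1 : ℕ) : ℤ)))).card : ℝ) ≤
      ((univ.filter (fun i : Fin M => c + f.eval (((i : ℕ) + 1 : ℕ) : ℤ) ≠ 0 ∧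
      ¬ GoodP t N P θ η (c + f.eval (((i : ℕ) + 1 : ℕ) : ℤ)))).card : ℝ) := by exact_mod_cast card_le_card hsub
  refine hcard.trans (key.trans ?_)
  rw [Fintype.card_fin]
  have hMN' : (M : ℝ) ≤ N := by exact_mod_cast hMk.trans hMN
  calc (N : ℝ) ^ (-θ) * M ≤ (M : ℝ) ^ (-θ) * M :=
        mul_le_mul_of_nonneg_right (Real.rpow_le_rpow_of_nonpos hM0 hMN' (by linarith)) hM0.le
    _ = (M : ℝ) ^ (-θ) * (M : ℝ) ^ (1 : ℝ) := by rw [Real.rpow_one]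
    _ = (M : ℝ) ^ (-θ + 1) := by rw [← Real.rpow_add hM0]
    _ ≤ _ := Real.rpow_le_rpow_of_exponent_le hM1 (by linarith)

end Pool.Agent.TH212.PS
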