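import Pool.Agent.H30.L.R_seed8.TH212.PS.P12
import Pool.Agent.H30.L.R_seed8.TH212.DV.C18

set_option autoImplicit false

/-! Power saving: summability and small conversions. -/

namespace Pool.Agent.TH212.PS
open Finset Polynomial
open Pool.Agent.H807R2.Dav
open Pool.Agent.TH212.DV

lemma series_summable (t : ℕ) (P : ℕ → ℝ[X]) (hP : HW t P) (h : ℤ) (hh : h ≠ 0) (u v : ℝ) :
    Summable (fun q : ℕ => (cz q h : ℝ) * ((P q).eval u * (P q).eval v)) := by
  obtain ⟨K, _, hS⟩ := Sij_bound t P hP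
  have e1 : (fun q : ℕ => (cz q h : ℝ) * ((P q).eval u * (P q).eval v)) =
      fun q : ℕ => ∑ i ∈ range (t + 2), ∑ j ∈ range (t + 2), ((cz q h : ℝ) * ((P q).coeff i * (P q).coeff j)) * (u ^ i * v ^ j) := by
    funext q
    rw [Polynomial.eval_eq_sum_range' (lt_of_le_of_lt (hP.deg q) (Nat.lt_succ_self (t + 1))),
      Polynomial.eval_eq_sum_range' (lt_of_le_of_lt (hP.deg q) (Nat.lt_succ_self (t + 1))), sum_mul_sum, mul_sum]
    apply sum_congr rfl
    intro i _
    rw [mul_sum]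
    apply sum_congr rfl
    intro j _
    ring
  rw [e1]
  exact summable_sum fun i _ => summable_sum fun j _ => (hS h hh i j).1.mul_right _

lemma kap_pos (s q : ℕ) (hq : 1 ≤ q) : 0 < kap (s + 1) q := by
  rw [← kap_card (s + 1) q hq]
  have hne : Nonempty {a : Fin (s + 1) → Fin q // q ∣ ∏ i, (a i : ℕ)} := by
    refine ⟨⟨fun _ => ⟨0, hq⟩, ?_⟩⟩
    have : ∏ i : Fin (s + 1), ((fun _ => (⟨0, hq⟩ : Fin q)) i : ℕ) = 0 := by
      apply prod_eq_zero (mem_univ (0 : Fin (s + 1)))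
      rfl
    rw [this]
    exact dvd_zero _
  have h1 : 0 < Nat.card {a : Fin (s + 1) → Fin q // q ∣ ∏ i, (a i : ℕ)} := Nat.card_pos
  have hq0 : (0 : ℝ) < q := by exact_mod_cast hq
  have h2 : (0 : ℝ) < (Nat.card {a : Fin (s + 1) → Fin q // q ∣ ∏ i, (a i : ℕ)} : ℝ) := by exact_mod_cast h1
  positivity

end Pool.Agent.TH212.PS
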