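import Pool.Agent.H49.G.R_seed8.TH212.PS.P1
import Pool.Agent.H30.L.R_seed8.TH212.DV.C9
import Pool.Agent.H30.L.R_seed8.TH212.DV.C12

set_option autoImplicit false

/-! Power saving: the exponential sums and pointwise bounds. -/

namespace Pool.Agent.TH212.PS
open Finset
open Pool.Agent.H807R2.Dav
open Pool.Agent.TH212.DV
open ArithmeticFunction (zeta)

/-- the weights as real numbers -/
noncomputable def WE (Y t a : ℕ) : ℝ := (EE Y (t + 2) a : ℝ)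

lemma WE_nonneg (Y t a : ℕ) : 0 ≤ WE Y t a := by unfold WE; positivity

lemma WE_le (Y t a : ℕ) : WE Y t a ≤ (t + 2) * dk (t + 1) a := by
  unfold WE
  have := EE_le Y (t + 1) a
  have h2 : ((EE Y (t + 2) a : ℕ) : ℝ) ≤ ((t + 1 + 1) * dk (t + 1) a : ℕ) := by exact_mod_cast this
  refine h2.trans (le_of_eq ?_)
  push_cast
  ring

/-- the parameters -/
structure Par (t : ℕ) (κ : ℝ) (N Y z : ℕ) : Prop where
  low : Y ^ (2 * (t + 2)) ≤ N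
  high : N < (Y + 1) ^ (2 * (t + 2))
  zdef : z = ⌈(N : ℝ) ^ κ⌉₊

lemma par_bounds (t : ℕ) (κ : ℝ) (hκ0 : 0 < κ) (hκ : κ ≤ 1 / (4 * (t + 2))) : ∃ N₀ : ℕ, ∀ N : ℕ, N₀ ≤ N → ∀ Y z : ℕ, Par t κ N Y z →
    1 ≤ Y ∧ (N : ℝ) ^ (1 / (2 * ((t : ℝ) + 2))) ≤ 2 * Y ∧ ((2 * N / Y : ℕ) : ℝ) ≤ 4 * (N : ℝ) ^ (1 - 1 / (2 * ((t : ℝ) + 2))) ∧
      1 ≤ z ∧ (N : ℝ) ^ κ ≤ z ∧ (z : ℝ) ≤ 2 * (N : ℝ) ^ κ ∧ z ≤ 2 * N / Y ∧ 2 * N / Y ≤ 2 * N := by
  obtain ⟨δ, hδ⟩ : ∃ δ : ℝ, δ = 1 / (2 * ((t : ℝ) + 2)) := ⟨_, rfl⟩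
  have ht0 : (0 : ℝ) ≤ t := Nat.cast_nonneg t
  have hδ0 : 0 < δ := by rw [hδ]; positivity
  have hδ1 : δ ≤ 1 / 4 := by rw [hδ, div_le_div_iff₀ (by positivity) (by norm_num)]; linarith
  have hκδ : κ ≤ δ / 2 := by
    rw [hδ]
    refine hκ.trans (le_of_eq ?_)
    field_simp
    ring
  obtain ⟨n1, h1⟩ := ev_pow 0 2 δ hδ0
  obtain ⟨n2, h2⟩ := ev_pow 0 4 (1 / 2) (by norm_num)
  rw [← hδ]
  refine ⟨n1 + n2 + 1, fun N hN Y z hp => ?_⟩
  have a1 := h1 N (by omega)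
  have a2 := h2 N (by omega)
  rw [pow_zero, mul_one] at a1 a2
  have hN1 : 1 ≤ N := by omega
  have hN0 : (0 : ℝ) < N := by exact_mod_cast hN1
  have hNr : (1 : ℝ) ≤ N := by exact_mod_cast hN1
  have hY1 : (N : ℝ) ^ δ < Y + 1 := by
    have h3 : (N : ℝ) < ((Y : ℝ) + 1) ^ (2 * (t + 2)) := by exact_mod_cast hp.high
    have h4 : (N : ℝ) ^ δ < (((Y : ℝ) + 1) ^ (2 * (t + 2))) ^ δ := Real.rpow_lt_rpow hN0.le h3 hδ0
    have h5 : (((Y : ℝ) + 1) ^ (2 * (t + 2))) ^ δ = (Y : ℝ) + 1 := by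
      rw [← Real.rpow_natCast, ← Real.rpow_mul (by positivity), hδ]
      have : (((2 * (t + 2) : ℕ) : ℝ)) * (1 / (2 * ((t : ℝ) + 2))) = 1 := by
        push_cast
        field_simp
      rw [this, Real.rpow_one]
    rw [h5] at h4
    exact h4
  have hYpos : 1 ≤ Y := by
    have : (1 : ℝ) < Y + 1 := by linarith
    have h3 : (0 : ℝ) < Y := by linarith
    exact_mod_cast h3
  have hYr : (1 : ℝ) ≤ Y := by exact_mod_cast hYpos
  have hY2 : (N : ℝ) ^ δ ≤ 2 * Y := by linarith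
  have hNδ : 0 < (N : ℝ) ^ δ := Real.rpow_pos_of_pos hN0 _
  have hz1 : (N : ℝ) ^ κ ≤ z := by rw [hp.zdef]; exact Nat.le_ceil _
  have hNκ1 : 1 ≤ (N : ℝ) ^ κ := Real.one_le_rpow hNr hκ0.le
  have hz2 : (z : ℝ) ≤ 2 * (N : ℝ) ^ κ := by
    have h3 : (z : ℝ) < (N : ℝ) ^ κ + 1 := by rw [hp.zdef]; exact Nat.ceil_lt_add_one (by positivity)
    linarith
  have hzpos : 1 ≤ z := by
    have : (1 : ℝ) ≤ z := hNκ1.trans hz1
    exact_mod_cast this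
  have e1 : (N : ℝ) ^ (1 - δ) = N / (N : ℝ) ^ δ := by rw [Real.rpow_sub hN0, Real.rpow_one]
  have hD : ((2 * N / Y : ℕ) : ℝ) ≤ 4 * (N : ℝ) ^ (1 - δ) := by
    have h3 : ((2 * N / Y : ℕ) : ℝ) ≤ ((2 * N : ℕ) : ℝ) / Y := Nat.cast_div_le
    refine h3.trans ?_
    rw [e1, div_le_iff₀ (by linarith), mul_comm (4 * _), ← mul_div_assoc, ← mul_div_assoc, le_div_iff₀ hNδ]
    push_cast
    nlinarith [mul_le_mul_of_nonneg_left hY2 hN0.le]
  have hYN : (Y : ℝ) ≤ (N : ℝ) ^ δ := by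
    have h3 : ((Y : ℝ)) ^ (2 * (t + 2)) ≤ N := by exact_mod_cast hp.low
    have h4 : (((Y : ℝ)) ^ (2 * (t + 2))) ^ δ ≤ (N : ℝ) ^ δ := Real.rpow_le_rpow (by positivity) h3 hδ0.le
    have h5 : (((Y : ℝ)) ^ (2 * (t + 2))) ^ δ = (Y : ℝ) := by
      rw [← Real.rpow_natCast, ← Real.rpow_mul (by positivity), hδ]
      have : (((2 * (t + 2) : ℕ) : ℝ)) * (1 / (2 * ((t : ℝ) + 2))) = 1 := by
        push_cast
        field_simp
      rw [this, Real.rpow_one]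
    rw [h5] at h4
    exact h4
  have hzD : z ≤ 2 * N / Y := by
    rw [Nat.le_div_iff_mul_le hYpos]
    have h3 : (z : ℝ) * Y ≤ 2 * N := by
      calc (z : ℝ) * Y ≤ (2 * (N : ℝ) ^ κ) * (N : ℝ) ^ δ := mul_le_mul hz2 hYN (by positivity) (by positivity)
        _ = 2 * (N : ℝ) ^ (κ + δ) := by rw [Real.rpow_add hN0]; ring
        _ ≤ 2 * (N : ℝ) ^ (1 : ℝ) := by
            apply mul_le_mul_of_nonneg_left _ (by norm_num)
            exact Real.rpow_le_rpow_of_exponent_le hNr (by linarith)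
        _ = 2 * N := by rw [Real.rpow_one]
    exact_mod_cast h3
  exact ⟨hYpos, hY2, hD, hzpos, hz1, hz2, hzD, Nat.div_le_self _ _⟩

/-- the exponential sums with power saving -/
theorem sup_pow (t : ℕ) (κ : ℝ) (hκ0 : 0 < κ) (hκ : κ ≤ 1 / (4 * (t + 2))) : ∃ N₀ : ℕ, ∀ N : ℕ, N₀ ≤ N → ∀ Y z : ℕ, Par t κ N Y z →
    ∀ H : ℕ, H ≤ 2 * N → ∀ α : ℝ,
    ‖∑ n ∈ Icc 1 H, ((FY (WE Y t) Y (2 * N / Y) n - MY (WE Y t) Y (2 * N / Y) z n : ℝ) : ℂ) * ee ((n : ℝ) * α)‖ ≤ (N : ℝ) ^ (1 - κ / 4) := by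
  obtain ⟨δ, hδ⟩ : ∃ δ : ℝ, δ = 1 / (2 * ((t : ℝ) + 2)) := ⟨_, rfl⟩
  have ht0 : (0 : ℝ) ≤ t := Nat.cast_nonneg t
  have hδ0 : 0 < δ := by rw [hδ]; positivity
  have hδ1 : δ ≤ 1 / 4 := by rw [hδ, div_le_div_iff₀ (by positivity) (by norm_num)]; linarith
  have hκδ : κ ≤ δ / 2 := by
    rw [hδ]
    refine hκ.trans (le_of_eq ?_)
    field_simp
    ring
  obtain ⟨C, hC1, hC⟩ := dk_eps (t + 1) (δ / 2) (by positivity)
  obtain ⟨n0, h0⟩ := par_bounds t κ hκ0 hκ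
  obtain ⟨n1, h1⟩ := ev_pow (t + 3) ((t + 2) * C * 4 ^ (t + 1) * 7 * (24 + 12 * 16 * 5)) (κ / 4) (by positivity)
  obtain ⟨n2, h2⟩ := ev_log 1
  refine ⟨n0 + n1 + n2 + 2, fun N hN Y z hp H hH α => ?_⟩
  obtain ⟨hY1, hY2, hD, hz1, hz2, hz3, hzD, hDN⟩ := h0 N (by omega) Y z hp
  have a1 := h1 N (by omega)
  have a2 := h2 N (by omega)
  have hN1 : 1 ≤ N := by omega
  have hN0 : (0 : ℝ) < N := by exact_mod_cast hN1
  have hNr : (1 : ℝ) ≤ N := by exact_mod_cast hN1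
  obtain ⟨L, hL⟩ : ∃ L, L = Real.log (N : ℝ) := ⟨_, rfl⟩
  rw [← hL] at a1 a2
  obtain ⟨D, hDd⟩ : ∃ D, D = 2 * N / Y := ⟨_, rfl⟩
  rw [← hDd] at hD hzD hDN ⊢
  rw [← hδ] at hD
  have hD0 : (0 : ℝ) < D := by exact_mod_cast (by omega : 0 < D)
  have hlD0 : 0 ≤ Real.log D := Real.log_natCast_nonneg D
  have hlD : Real.log D ≤ 2 * L := by
    have h3 : (D : ℝ) ≤ (N : ℝ) ^ 2 := by
      have : (D : ℝ) ≤ 2 * N := by exact_mod_cast hDN
      have h4 : (2 : ℝ) ≤ N := by exact_mod_cast (by omega : 2 ≤ N)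
      nlinarith
    have h4 := Real.log_le_log hD0 h3
    rw [Real.log_pow] at h4
    rw [hL]
    exact_mod_cast h4
  have hKK : ∀ q, 0 ≤ ∑ a ∈ Rd q, KK H (α + (a : ℝ) / q) := fun q => sum_nonneg fun a _ => KK_nonneg (Nat.cast_nonneg _) _
  refine (sup_Y (WE Y t) (WE_nonneg Y t) Y D z H hzD α).trans ?_
  have s1 : ∑ q ∈ Ioc z D, RR (WE Y t) D q * ∑ a ∈ Rd q, KK H (α + (a : ℝ) / q) ≤
      ∑ q ∈ Ioc z D, ((t + 2) * C * (1 + 2 * L) ^ (t + 1)) * ((q : ℝ) ^ (δ / 2 - 1) * ∑ a ∈ Rd q, KK H (α + (a : ℝ) / q)) := by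
    apply sum_le_sum
    intro q hq
    rw [mem_Ioc] at hq
    have hq1 : 1 ≤ q := by omega
    have hq0 : (0 : ℝ) < q := by exact_mod_cast hq1
    rw [← mul_assoc]
    apply mul_le_mul_of_nonneg_right _ (hKK q)
    refine (RR_le (WE Y t) (t + 2) t D q (WE_le Y t) (by positivity) hq1).trans ?_
    have e1 : (dk (t + 1) q : ℝ) / q ≤ C * (q : ℝ) ^ (δ / 2 - 1) := by
      rw [div_le_iff₀ hq0]
      refine (hC q hq1).trans (le_of_eq ?_)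
      rw [mul_assoc, Real.rpow_sub hq0, Real.rpow_one, div_mul_cancel₀ _ hq0.ne']
    calc (t + 2) * ((dk (t + 1) q : ℝ) / q) * (1 + Real.log D) ^ (t + 1)
        ≤ (t + 2) * (C * (q : ℝ) ^ (δ / 2 - 1)) * (1 + 2 * L) ^ (t + 1) := by
          apply mul_le_mul (mul_le_mul_of_nonneg_left e1 (by positivity)) _ (by positivity) (by positivity)
          exact pow_le_pow_left₀ (by linarith) (by linarith) _
      _ = _ := by ring
  refine s1.trans ?_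
  rw [← mul_sum]
  have s2 := dyadic D z H hz1 hzD α (δ / 2) (by positivity) (by linarith)
  have f1 : (z : ℝ) ^ (δ / 2 - 1) ≤ (N : ℝ) ^ (-(κ / 2)) := by
    have g1 : (z : ℝ) ^ (δ / 2 - 1) ≤ ((N : ℝ) ^ κ) ^ (δ / 2 - 1) :=
      Real.rpow_le_rpow_of_nonpos (by positivity) hz2 (by linarith)
    refine g1.trans ?_
    rw [← Real.rpow_mul hN0.le]
    apply Real.rpow_le_rpow_of_exponent_le hNr
    nlinarith
  have f2 : (D : ℝ) ^ (1 + δ / 2) ≤ 16 * (N : ℝ) ^ (1 - κ / 2) := by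
    calc (D : ℝ) ^ (1 + δ / 2) ≤ (4 * (N : ℝ) ^ (1 - δ)) ^ (1 + δ / 2) := Real.rpow_le_rpow hD0.le hD (by linarith)
      _ = (4 : ℝ) ^ (1 + δ / 2) * (N : ℝ) ^ ((1 - δ) * (1 + δ / 2)) := by
          rw [Real.mul_rpow (by norm_num) (by positivity), ← Real.rpow_mul hN0.le]
      _ ≤ 16 * (N : ℝ) ^ (1 - κ / 2) := by
          apply mul_le_mul _ _ (by positivity) (by norm_num)
          · calc (4 : ℝ) ^ (1 + δ / 2) ≤ (4 : ℝ) ^ (2 : ℝ) := Real.rpow_le_rpow_of_exponent_le (by norm_num) (by linarith)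
              _ = 16 := by norm_num
          · apply Real.rpow_le_rpow_of_exponent_le hNr
            nlinarith
  have hNκ : 0 < (N : ℝ) ^ (1 - κ / 2) := Real.rpow_pos_of_pos hN0 _
  have s3 : (1 + 2 * Real.log D) * (12 * H * (z : ℝ) ^ (δ / 2 - 1) + 12 * (D : ℝ) ^ (1 + δ / 2) * (2 + Real.log D)) ≤
      (7 * L) * ((24 + 12 * 16 * 5) * L * (N : ℝ) ^ (1 - κ / 2)) := by
    have hHN : (H : ℝ) ≤ 2 * N := by exact_mod_cast hH
    have t1 : 12 * (H : ℝ) * (z : ℝ) ^ (δ / 2 - 1) ≤ 24 * L * (N : ℝ) ^ (1 - κ / 2) := by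
      calc 12 * (H : ℝ) * (z : ℝ) ^ (δ / 2 - 1) ≤ 12 * (2 * N) * (N : ℝ) ^ (-(κ / 2)) := by
            apply mul_le_mul (by linarith) f1 (by positivity) (by positivity)
        _ = 24 * (N : ℝ) ^ (1 - κ / 2) := by
            rw [show 1 - κ / 2 = 1 + -(κ / 2) by ring, Real.rpow_add hN0, Real.rpow_one]; ring
        _ ≤ 24 * L * (N : ℝ) ^ (1 - κ / 2) := by nlinarith
    have t2 : 12 * (D : ℝ) ^ (1 + δ / 2) * (2 + Real.log D) ≤ 12 * 16 * 5 * L * (N : ℝ) ^ (1 - κ / 2) := by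
      calc 12 * (D : ℝ) ^ (1 + δ / 2) * (2 + Real.log D) ≤ 12 * (16 * (N : ℝ) ^ (1 - κ / 2)) * (5 * L) := by
            apply mul_le_mul _ (by linarith) (by linarith) (by positivity)
            exact mul_le_mul_of_nonneg_left f2 (by norm_num)
        _ = _ := by ring
    apply mul_le_mul (by linarith) _ (by positivity) (by positivity)
    linarith
  have hKpos : 0 ≤ ((t : ℝ) + 2) * C * (1 + 2 * L) ^ (t + 1) := by positivity
  refine (mul_le_mul_of_nonneg_left (s2.trans s3) hKpos).trans ?_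
  have s4 : ((t : ℝ) + 2) * C * (1 + 2 * L) ^ (t + 1) ≤ (t + 2) * C * (4 ^ (t + 1) * L ^ (t + 1)) := by
    apply mul_le_mul_of_nonneg_left _ (by positivity)
    rw [← mul_pow]
    exact pow_le_pow_left₀ (by positivity) (by linarith) _
  have s5 : 0 ≤ (7 * L) * ((24 + 12 * 16 * 5) * L * (N : ℝ) ^ (1 - κ / 2)) := by positivity
  refine (mul_le_mul_of_nonneg_right s4 s5).trans ?_
  have e2 : ((t : ℝ) + 2) * C * (4 ^ (t + 1) * L ^ (t + 1)) * ((7 * L) * ((24 + 12 * 16 * 5) * L * (N : ℝ) ^ (1 - κ / 2))) =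
      ((t + 2) * C * 4 ^ (t + 1) * 7 * (24 + 12 * 16 * 5)) * L ^ (t + 3) * (N : ℝ) ^ (1 - κ / 2) := by ring
  rw [e2]
  calc _ ≤ (N : ℝ) ^ (κ / 4) * (N : ℝ) ^ (1 - κ / 2) := mul_le_mul_of_nonneg_right a1 hNκ.le
    _ = _ := by rw [← Real.rpow_add hN0]; congr 1; ring

/-- averages of Ramanujan sums -/
lemma cz_inv_sum (z H : ℕ) (hH : 1 ≤ H) : ∑ q ∈ Icc 1 z, 1 / (q : ℝ) * |(cz q (H : ℤ) : ℝ)| ≤ (H.divisors.card : ℝ) * (1 + Real.log z) := by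
  have h1 : ∀ q ∈ Icc 1 z, 1 / (q : ℝ) * |(cz q (H : ℤ) : ℝ)| ≤ ∑ g ∈ H.divisors, if g ∣ q then (g : ℝ) * (1 / (q : ℝ)) else 0 := by
    intro q hq
    rw [mem_Icc] at hq
    have h2 := mul_le_mul_of_nonneg_left (abs_cz_le_sum q H) (by positivity : (0 : ℝ) ≤ 1 / (q : ℝ))
    refine h2.trans (le_of_eq ?_)
    rw [mul_sum, ← sum_filter]
    have e : q.divisors.filter (fun g => g ∣ H) = H.divisors.filter (fun g => g ∣ q) := by
      ext g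
      rw [mem_filter, mem_filter, Nat.mem_divisors, Nat.mem_divisors]
      constructor
      · rintro ⟨⟨a, b⟩, c⟩; exact ⟨⟨c, by omega⟩, a⟩
      · rintro ⟨⟨a, b⟩, c⟩; exact ⟨⟨c, by omega⟩, a⟩
    rw [e]
    apply sum_congr rfl
    intro g _
    ring
  refine (sum_le_sum h1).trans ?_
  rw [sum_comm]
  have h2 : ∀ g ∈ H.divisors, ∑ q ∈ Icc 1 z, (if g ∣ q then (g : ℝ) * (1 / (q : ℝ)) else 0) ≤ 1 + Real.log z := by
    intro g hg
    have hg0 : 1 ≤ g := Nat.pos_of_mem_divisors hg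
    have hg1 : (0 : ℝ) < g := by exact_mod_cast hg0
    have h3 := RR_le (fun d => (dk (0 + 1) d : ℝ)) 1 0 z g (fun d => by rw [one_mul]) (by norm_num) hg0
    have h4 : RR (fun d => (dk (0 + 1) d : ℝ)) z g = ∑ q ∈ (Icc 1 z).filter (fun q => g ∣ q), 1 / (q : ℝ) := by
      unfold RR
      apply sum_congr rfl
      intro q hq
      rw [mem_filter, mem_Icc] at hq
      have : dk (0 + 1) q = 1 := by
        unfold dk
        rw [zero_add, pow_one, ArithmeticFunction.zeta_apply_ne (by omega)]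
      simp only
      rw [this]
      norm_num
    have h5 : (dk (0 + 1) g : ℝ) = 1 := by
      have : dk (0 + 1) g = 1 := by
        unfold dk
        rw [zero_add, pow_one, ArithmeticFunction.zeta_apply_ne (by omega)]
      rw [this]
      norm_num
    rw [h4, h5, one_mul, zero_add, pow_one] at h3
    rw [← sum_filter, ← mul_sum]
    calc (g : ℝ) * ∑ q ∈ (Icc 1 z).filter (fun q => g ∣ q), 1 / (q : ℝ) ≤ g * (1 / g * (1 + Real.log z)) := mul_le_mul_of_nonneg_left h3 hg1.le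
      _ = _ := by field_simp
  refine (sum_le_sum h2).trans ?_
  rw [sum_const, nsmul_eq_mul]

end Pool.Agent.TH212.PS
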