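import Pool.Agent.H30.L.R_seed8.TH212.PS.P3
import Mathlib.LinearAlgebra.Lagrange

set_option autoImplicit false

/-! The size of the coefficients of the local polynomials. -/

namespace Pool.Agent.TH212.PS
open Finset Polynomial
open Pool.Agent.H807R2.Dav
open Pool.Agent.TH212.DV

/-- polynomials describing the weights -/
structure HW (t : ℕ) (P : ℕ → ℝ[X]) : Prop where
  deg : ∀ q, (P q).natDegree ≤ t + 1
  app : ∃ C A δ : ℝ, 0 ≤ C ∧ 0 ≤ A ∧ 0 < δ ∧ ∀ q Y n : ℕ, 1 ≤ q → 2 ≤ Y → 2 * Y ^ (t + 2) ≤ n → n ≤ (Y + 1) ^ (4 * (t + 2)) →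
    |∑ a ∈ (Icc 1 n).filter (fun a => q ∣ a ∧ a * Y < n), (EE Y (t + 2) a : ℝ) / a - (P q).eval (Real.log n)| ≤
      C * (q : ℝ) ^ A * (n : ℝ) ^ (-δ)

lemma ww_eq (t Y D q n : ℕ) (hY : 1 ≤ Y) (hD : ∀ a, a * Y < n → a ≤ D) :
    ww (WE Y t) Y D q n = ∑ a ∈ (Icc 1 n).filter (fun a => q ∣ a ∧ a * Y < n), (EE Y (t + 2) a : ℝ) / a := by
  unfold ww WE
  apply sum_congr _ (fun _ _ => rfl)
  ext a
  rw [mem_filter, mem_filter, mem_Icc, mem_Icc]
  constructor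
  · rintro ⟨h1, h2, h3⟩
    have : a * 1 ≤ a * Y := Nat.mul_le_mul_left a hY
    exact ⟨⟨h1.1, by omega⟩, h2, h3⟩
  · rintro ⟨h1, h2, h3⟩
    exact ⟨⟨h1.1, hD a h3⟩, h2, h3⟩

lemma exY (k n : ℕ) (hk : 1 ≤ k) : ∃ Y, Y ^ k ≤ n ∧ n < (Y + 1) ^ k := by
  classical
  have hex : ∃ m, n < (m + 1) ^ k := by
    refine ⟨n, ?_⟩
    calc n < n + 1 := Nat.lt_succ_self n
      _ = (n + 1) ^ 1 := (pow_one _).symm
      _ ≤ (n + 1) ^ k := Nat.pow_le_pow_right (by omega) hk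
  refine ⟨Nat.find hex, ?_, Nat.find_spec hex⟩
  rcases Nat.eq_zero_or_pos (Nat.find hex) with h | h
  · rw [h, zero_pow (by omega)]; omega
  · have := Nat.find_min hex (m := Nat.find hex - 1) (by omega)
    rw [Nat.sub_add_cancel h] at this
    omega

lemma coeff_of_values (d K : ℕ) : ∃ CL : ℝ, 0 ≤ CL ∧ ∀ Q : ℝ[X], Q.natDegree ≤ d → ∀ V : ℝ,
    (∀ j ∈ range (d + 1), |Q.eval ((K + j : ℕ) : ℝ)| ≤ V) → ∀ i, |Q.coeff i| ≤ CL * V := by
  obtain ⟨v, hv⟩ : ∃ v : ℕ → ℝ, v = fun j => ((K + j : ℕ) : ℝ) := ⟨_, rfl⟩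
  have hinj : Set.InjOn v (range (d + 1)) := by
    intro a _ b _ hab
    rw [hv] at hab
    simp only at hab
    have : K + a = K + b := by exact_mod_cast hab
    omega
  refine ⟨∑ j ∈ range (d + 1), ∑ i ∈ range (d + 1), |(Lagrange.basis (range (d + 1)) v j).coeff i|,
    sum_nonneg fun j _ => sum_nonneg fun i _ => abs_nonneg _, fun Q hQ V hV i => ?_⟩
  have hV0 : 0 ≤ V := (abs_nonneg _).trans (hV 0 (by rw [mem_range]; omega))
  rcases Nat.lt_or_ge d i with hi | hi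
  · rw [Polynomial.coeff_eq_zero_of_natDegree_lt (by omega), abs_zero]
    exact mul_nonneg (sum_nonneg fun j _ => sum_nonneg fun i _ => abs_nonneg _) hV0
  · have hQe : Q = Lagrange.interpolate (range (d + 1)) v (fun j => Q.eval (v j)) := by
      apply Lagrange.eq_interpolate hinj
      rw [card_range]
      refine lt_of_le_of_lt (Polynomial.degree_le_of_natDegree_le hQ) ?_
      exact_mod_cast Nat.lt_succ_self d
    have e : Q.coeff i = ∑ j ∈ range (d + 1), Q.eval (v j) * (Lagrange.basis (range (d + 1)) v j).coeff i := by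
      conv_lhs => rw [hQe]
      rw [Lagrange.interpolate_apply, Polynomial.finsetSum_coeff]
      apply sum_congr rfl
      intro j _
      rw [Polynomial.coeff_C_mul]
    rw [e, sum_mul]
    refine (abs_sum_le_sum_abs _ _).trans (sum_le_sum fun j hj => ?_)
    rw [abs_mul, mul_comm]
    apply mul_le_mul _ _ (abs_nonneg _) (sum_nonneg fun i _ => abs_nonneg _)
    · exact single_le_sum (f := fun i => |(Lagrange.basis (range (d + 1)) v j).coeff i|) (fun _ _ => abs_nonneg _)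
        (mem_range.2 (by omega))
    · have := hV j hj
      rw [hv]
      exact this

theorem coeff_bound (t : ℕ) (P : ℕ → ℝ[X]) (hP : HW t P) (ε : ℝ) (hε : 0 < ε) : ∃ C : ℝ, 0 ≤ C ∧ ∀ q : ℕ, 1 ≤ q → ∀ i,
    |(P q).coeff i| ≤ C * (q : ℝ) ^ (ε - 1) := by
  obtain ⟨C, A, δ, hC, hA, hδ, h⟩ := hP.app
  obtain ⟨K, hK⟩ : ∃ K : ℕ, K = 2 * (t + 2) + ⌈(A + 1) / δ⌉₊ := ⟨_, rfl⟩
  have hKδ : A + 1 ≤ K * δ := by
    have h1 : (A + 1) / δ ≤ K := (Nat.le_ceil _).trans (by rw [hK]; push_cast; linarith [(Nat.cast_nonneg t : (0 : ℝ) ≤ t)])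
    rwa [div_le_iff₀ hδ] at h1
  obtain ⟨CL, hCL, hL⟩ := coeff_of_values (t + 1) K
  obtain ⟨ε', hε'⟩ : ∃ ε' : ℝ, ε' = ε / (K + t + 1 : ℕ) := ⟨_, rfl⟩
  have hKt : (0 : ℝ) < (K + t + 1 : ℕ) := by exact_mod_cast (by omega : 0 < K + t + 1)
  have hε'0 : 0 < ε' := by rw [hε']; positivity
  obtain ⟨N₀, hN₀⟩ := pt_ww t ε' hε'0
  obtain ⟨S, hS⟩ : ∃ S : ℝ, S = ∑ q ∈ range N₀, ∑ i ∈ range (t + 2), |(P q).coeff i| := ⟨_, rfl⟩
  have hS0 : 0 ≤ S := by rw [hS]; exact sum_nonneg fun q _ => sum_nonneg fun i _ => abs_nonneg _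
  have h2ε : (0 : ℝ) < 2 ^ ε := by positivity
  refine ⟨2 ^ (t + 1) * CL * (2 ^ ε + C) + S * N₀, by positivity, fun q hq i => ?_⟩
  have hq0 : (0 : ℝ) < q := by exact_mod_cast hq
  have hq1 : (1 : ℝ) ≤ q := by exact_mod_cast hq
  have hqε : 0 < (q : ℝ) ^ (ε - 1) := Real.rpow_pos_of_pos hq0 _
  rcases Nat.lt_or_ge (t + 1) i with hi | hi
  · rw [Polynomial.coeff_eq_zero_of_natDegree_lt (lt_of_le_of_lt (hP.deg q) hi), abs_zero]
    positivity
  rcases Nat.lt_or_ge q N₀ with hqN | hqN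
  · have h1 : |(P q).coeff i| ≤ S := by
      rw [hS]
      have g1 := single_le_sum (f := fun i => |(P q).coeff i|) (fun _ _ => abs_nonneg _) (mem_range.2 (by omega : i < t + 2))
      have g2 := single_le_sum (f := fun q => ∑ i ∈ range (t + 2), |(P q).coeff i|)
        (fun _ _ => sum_nonneg fun _ _ => abs_nonneg _) (mem_range.2 hqN)
      exact g1.trans g2
    have h2 : 1 ≤ N₀ * (q : ℝ) ^ (ε - 1) := by
      have g1 : (q : ℝ) * (q : ℝ) ^ (ε - 1) = (q : ℝ) ^ ε := by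
        rw [Real.rpow_sub_one hq0.ne']
        field_simp
      have g2 : 1 ≤ (q : ℝ) ^ ε := Real.one_le_rpow hq1 hε.le
      have g3 : (q : ℝ) ≤ N₀ := by exact_mod_cast hqN.le
      calc (1 : ℝ) ≤ (q : ℝ) * (q : ℝ) ^ (ε - 1) := by rw [g1]; exact g2
        _ ≤ _ := mul_le_mul_of_nonneg_right g3 hqε.le
    have h3 : 0 ≤ 2 ^ (t + 1) * CL * (2 ^ ε + C) * (q : ℝ) ^ (ε - 1) := by positivity
    nlinarith
  · obtain ⟨b, hb⟩ : ∃ b : ℕ, b = q + 1 := ⟨_, rfl⟩
    have hb2 : 2 ≤ b := by omega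
    have hb0 : (0 : ℝ) < b := by exact_mod_cast (by omega : 0 < b)
    have hbq : (b : ℝ) ≤ 2 * q := by rw [hb]; push_cast; linarith
    have hqb : (q : ℝ) ≤ b := by rw [hb]; push_cast; linarith
    have hlogb : 1 / 2 ≤ Real.log b := by
      have g1 : Real.log 2 ≤ Real.log b := Real.log_le_log (by norm_num) (by exact_mod_cast hb2)
      linarith [Real.log_two_gt_d9]
    obtain ⟨V, hV⟩ : ∃ V : ℝ, V = (2 ^ ε + C) * (q : ℝ) ^ (ε - 1) := ⟨_, rfl⟩
    obtain ⟨Q, hQ⟩ : ∃ Q : ℝ[X], Q = (P q).comp (Polynomial.C (Real.log b) * Polynomial.X) := ⟨_, rfl⟩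
    have hQd : Q.natDegree ≤ t + 1 := by
      rw [hQ]
      refine Polynomial.natDegree_comp_le.trans ?_
      have g1 : (Polynomial.C (Real.log (b : ℝ)) * Polynomial.X).natDegree ≤ 1 :=
        (Polynomial.natDegree_C_mul_le _ _).trans Polynomial.natDegree_X_le
      calc (P q).natDegree * (Polynomial.C (Real.log (b : ℝ)) * Polynomial.X).natDegree ≤ (t + 1) * 1 :=
            Nat.mul_le_mul (hP.deg q) g1
        _ = _ := by ring
    have hval : ∀ j ∈ range (t + 1 + 1), |Q.eval ((K + j : ℕ) : ℝ)| ≤ V := by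
      intro j hj
      rw [mem_range] at hj
      obtain ⟨n, hn⟩ : ∃ n : ℕ, n = b ^ (K + j) := ⟨_, rfl⟩
      have hn1 : 1 ≤ n := by rw [hn]; exact Nat.one_le_pow _ _ (by omega)
      have hn0 : (0 : ℝ) < n := by exact_mod_cast hn1
      have hbn : b ≤ n := by rw [hn]; exact Nat.le_self_pow (by omega) b
      have e1 : Q.eval ((K + j : ℕ) : ℝ) = (P q).eval (Real.log n) := by
        rw [hQ, Polynomial.eval_comp]
        congr 1
        rw [Polynomial.eval_mul, Polynomial.eval_C, Polynomial.eval_X, hn, Nat.cast_pow, Real.log_pow]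
        ring
      obtain ⟨Y, hY1, hY2⟩ := exY (2 * (t + 2)) n (by omega)
      have hn4 : 2 ^ (2 * (t + 2)) ≤ n := by
        rw [hn]
        calc 2 ^ (2 * (t + 2)) ≤ 2 ^ (K + j) := Nat.pow_le_pow_right (by norm_num) (by omega)
          _ ≤ _ := Nat.pow_le_pow_left hb2 _
      have hYge : 2 ≤ Y := by
        by_contra hc
        have : (Y + 1) ^ (2 * (t + 2)) ≤ 2 ^ (2 * (t + 2)) := Nat.pow_le_pow_left (by omega) _
        omega
      have hYr : 2 * Y ^ (t + 2) ≤ n := by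
        have g1 : 2 ≤ Y ^ (t + 2) := by
          calc 2 ≤ Y := hYge
            _ ≤ Y ^ (t + 2) := Nat.le_self_pow (by omega) Y
        calc 2 * Y ^ (t + 2) ≤ Y ^ (t + 2) * Y ^ (t + 2) := Nat.mul_le_mul_right _ g1
          _ = Y ^ (2 * (t + 2)) := by rw [← pow_add]; congr 1; ring
          _ ≤ n := hY1
      have hY4 : n ≤ (Y + 1) ^ (4 * (t + 2)) := by
        refine hY2.le.trans ?_
        exact Nat.pow_le_pow_right (by omega) (by omega)
      have g := h q Y n hq hYge hYr hY4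
      rw [← ww_eq t Y n q n (by omega) (fun a ha => by
        have : a * 1 ≤ a * Y := Nat.mul_le_mul_left a (by omega)
        omega)] at g
      have g2 := hN₀ n (by omega) Y n q n (by omega) hq (by omega)
      have g3 := ww_nonneg (WE Y t) (WE_nonneg Y t) Y n q n
      rw [e1]
      have g4 : |(P q).eval (Real.log n)| ≤ (n : ℝ) ^ ε' / q + C * (q : ℝ) ^ A * (n : ℝ) ^ (-δ) := by
        have g5 := abs_le.1 g
        rw [abs_le]
        constructor <;> linarith [g5.1, g5.2]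
      refine g4.trans ?_
      have hnr : (n : ℝ) = (b : ℝ) ^ (((K + j : ℕ)) : ℝ) := by rw [hn, Nat.cast_pow, Real.rpow_natCast]
      have g5 : (n : ℝ) ^ ε' ≤ 2 ^ ε * (q : ℝ) ^ ε := by
        rw [hnr, ← Real.rpow_mul hb0.le, ← Real.mul_rpow (by norm_num) hq0.le]
        calc (b : ℝ) ^ (((K + j : ℕ) : ℝ) * ε') ≤ (b : ℝ) ^ ε := by
              apply Real.rpow_le_rpow_of_exponent_le (by exact_mod_cast (by omega : 1 ≤ b))
              rw [hε']
              have : ((K + j : ℕ) : ℝ) ≤ (K + t + 1 : ℕ) := by exact_mod_cast (by omega : K + j ≤ K + t + 1)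
              calc ((K + j : ℕ) : ℝ) * (ε / (K + t + 1 : ℕ)) ≤ (K + t + 1 : ℕ) * (ε / (K + t + 1 : ℕ)) :=
                    mul_le_mul_of_nonneg_right this (by positivity)
                _ = ε := by field_simp
          _ ≤ _ := Real.rpow_le_rpow hb0.le hbq hε.le
      have g6 : (n : ℝ) ^ (-δ) ≤ (q : ℝ) ^ (-(A + 1)) := by
        rw [hnr, ← Real.rpow_mul hb0.le]
        have e2 : ((K + j : ℕ) : ℝ) * -δ ≤ -(A + 1) := by
          have : (K : ℝ) ≤ ((K + j : ℕ) : ℝ) := by exact_mod_cast (by omega : K ≤ K + j)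
          nlinarith
        calc (b : ℝ) ^ (((K + j : ℕ) : ℝ) * -δ) ≤ (b : ℝ) ^ (-(A + 1)) :=
              Real.rpow_le_rpow_of_exponent_le (by exact_mod_cast (by omega : 1 ≤ b)) e2
          _ ≤ _ := Real.rpow_le_rpow_of_nonpos hq0 hqb (by linarith)
      have g7 : (n : ℝ) ^ ε' / q ≤ 2 ^ ε * (q : ℝ) ^ (ε - 1) := by
        rw [Real.rpow_sub_one hq0.ne', mul_div_assoc']
        exact div_le_div_of_nonneg_right g5 hq0.le
      have g8 : C * (q : ℝ) ^ A * (n : ℝ) ^ (-δ) ≤ C * (q : ℝ) ^ (ε - 1) := by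
        calc C * (q : ℝ) ^ A * (n : ℝ) ^ (-δ) ≤ C * (q : ℝ) ^ A * (q : ℝ) ^ (-(A + 1)) :=
              mul_le_mul_of_nonneg_left g6 (by positivity)
          _ = C * (q : ℝ) ^ (A + -(A + 1)) := by rw [Real.rpow_add hq0]; ring
          _ ≤ _ := by
              apply mul_le_mul_of_nonneg_left _ hC
              exact Real.rpow_le_rpow_of_exponent_le hq1 (by linarith)
      rw [hV]
      linarith
    have hco := hL Q hQd V hval i
    have e2 : Q.coeff i = (P q).coeff i * Real.log b ^ i := by rw [hQ, Polynomial.comp_C_mul_X_coeff]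
    have hlb0 : 0 ≤ Real.log (b : ℝ) ^ i := pow_nonneg (by linarith) _
    rw [e2, abs_mul, abs_of_nonneg hlb0] at hco
    have hli : (1 / 2 : ℝ) ^ (t + 1) ≤ Real.log b ^ i := by
      calc (1 / 2 : ℝ) ^ (t + 1) ≤ (1 / 2 : ℝ) ^ i := pow_le_pow_of_le_one (by norm_num) (by norm_num) hi
        _ ≤ _ := pow_le_pow_left₀ (by norm_num) hlogb i
    have e3 : |(P q).coeff i| * (1 / 2 : ℝ) ^ (t + 1) ≤ CL * V := (mul_le_mul_of_nonneg_left hli (abs_nonneg _)).trans hco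
    have e4 : |(P q).coeff i| ≤ 2 ^ (t + 1) * (CL * V) := by
      have h22 : (2 : ℝ) ^ (t + 1) * (1 / 2) ^ (t + 1) = 1 := by rw [← mul_pow]; norm_num
      calc |(P q).coeff i| = 2 ^ (t + 1) * (|(P q).coeff i| * (1 / 2 : ℝ) ^ (t + 1)) := by
            rw [mul_left_comm, h22, mul_one]
        _ ≤ _ := mul_le_mul_of_nonneg_left e3 (by positivity)
    refine e4.trans ?_
    rw [hV]
    have : 0 ≤ S * N₀ * (q : ℝ) ^ (ε - 1) := by positivity
    nlinarith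

/-- the size of the local polynomials at logarithms -/
theorem G_le (t : ℕ) (P : ℕ → ℝ[X]) (hP : HW t P) (ε : ℝ) (hε : 0 < ε) : ∃ N₀ : ℕ, ∀ N : ℕ, N₀ ≤ N → ∀ q n : ℕ, 1 ≤ q → 1 ≤ n → n ≤ 2 * N →
    |(P q).eval (Real.log n)| ≤ (N : ℝ) ^ ε * (q : ℝ) ^ (ε - 1) := by
  obtain ⟨C, hC, h⟩ := coeff_bound t P hP ε hε
  obtain ⟨n1, h1⟩ := ev_pow (t + 1) ((t + 2) * C * 3 ^ (t + 1)) ε hε
  obtain ⟨n2, h2⟩ := ev_log 1
  refine ⟨n1 + n2 + 2, fun N hN q n hq hn hn2 => ?_⟩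
  have a1 := h1 N (by omega)
  have a2 := h2 N (by omega)
  have hN0 : (0 : ℝ) < N := by exact_mod_cast (by omega : 0 < N)
  have hn0 : (0 : ℝ) < n := by exact_mod_cast hn
  have hq0 : (0 : ℝ) < q := by exact_mod_cast hq
  obtain ⟨u, hu⟩ : ∃ u, u = Real.log (n : ℝ) := ⟨_, rfl⟩
  have hu0 : 0 ≤ u := by rw [hu]; exact Real.log_natCast_nonneg n
  have hu1 : 1 + u ≤ 3 * Real.log N := by
    have g1 : Real.log n ≤ Real.log (2 * N) := Real.log_le_log hn0 (by exact_mod_cast hn2)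
    rw [Real.log_mul (by norm_num) hN0.ne'] at g1
    have := Real.log_two_lt_d9
    rw [hu]
    linarith
  rw [← hu, Polynomial.eval_eq_sum_range' (lt_of_le_of_lt (hP.deg q) (Nat.lt_succ_self (t + 1)))]
  refine (abs_sum_le_sum_abs _ _).trans ?_
  have e1 : ∀ i ∈ range (t + 1 + 1), |(P q).coeff i * u ^ i| ≤ C * (q : ℝ) ^ (ε - 1) * (3 ^ (t + 1) * Real.log N ^ (t + 1)) := by
    intro i hi
    rw [mem_range] at hi
    rw [abs_mul, abs_of_nonneg (pow_nonneg hu0 i)]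
    apply mul_le_mul (h q hq i) _ (pow_nonneg hu0 i) (by positivity)
    calc u ^ i ≤ (1 + u) ^ i := pow_le_pow_left₀ hu0 (by linarith) i
      _ ≤ (1 + u) ^ (t + 1) := pow_le_pow_right₀ (by linarith) (by omega)
      _ ≤ (3 * Real.log N) ^ (t + 1) := pow_le_pow_left₀ (by linarith) hu1 _
      _ = _ := mul_pow _ _ _
  refine (sum_le_sum e1).trans ?_
  rw [sum_const, card_range, nsmul_eq_mul]
  push_cast
  calc ((t : ℝ) + 1 + 1) * (C * (q : ℝ) ^ (ε - 1) * (3 ^ (t + 1) * Real.log N ^ (t + 1))) =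
        ((t + 2) * C * 3 ^ (t + 1) * Real.log N ^ (t + 1)) * (q : ℝ) ^ (ε - 1) := by ring
    _ ≤ _ := mul_le_mul_of_nonneg_right a1 (by positivity)

end Pool.Agent.TH212.PS
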