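import Pool.Agent.H30.L.R_seed8.TH212.PS.P6
import Pool.Agent.H30.L.R_seed8.TH212.PS.P8

set_option autoImplicit false

/-! Power saving: the main theorem with the complete main term. -/

namespace Pool.Agent.TH212.PS
open Finset Polynomial
open Pool.Agent.H807R2.Dav
open Pool.Agent.TH212.DV
open Pool.Agent.TH212.PL (En poly_hyp)

open Classical in
theorem main_P (t : ℕ) (P : ℕ → ℝ[X]) (hP : HW t P) (p B : ℕ) : ∃ θ : ℝ, 0 < θ ∧ ∃ N₀ : ℕ, ∀ N : ℕ, N₀ ≤ N →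
    ∀ (ι : Type) [Fintype ι] (v : ι → ℤ), (∀ i, |v i| ≤ B * N) →
    (En p v : ℝ) * N ≤ (N : ℝ) ^ θ * (Fintype.card ι : ℝ) ^ (2 * p) →
    ((univ.filter (fun i : ι => v i ≠ 0 ∧ ∃ x : ℕ, x ≤ N ∧ (N : ℝ) ^ (1 - θ) <
      |Dr (t + 2) x (v i) - Mf P x (v i)|)).card : ℝ) ≤ (N : ℝ) ^ (-θ) * Fintype.card ι := by
  obtain ⟨κ₀, hκ₀, hto⟩ := to_poly t P hP
  obtain ⟨κ, hκ⟩ : ∃ κ : ℝ, κ = min κ₀ (min (1 / (4 * ((t : ℝ) + 2))) (1 / 20)) := ⟨_, rfl⟩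
  have hκ0 : 0 < κ := by rw [hκ]; positivity
  have hκ1 : κ ≤ κ₀ := by rw [hκ]; exact min_le_left _ _
  have hκ2 : κ ≤ 1 / (4 * (t + 2)) := by rw [hκ]; exact (min_le_right _ _).trans (min_le_left _ _)
  have hκ3 : κ ≤ 1 / 20 := by rw [hκ]; exact (min_le_right _ _).trans (min_le_right _ _)
  obtain ⟨θ1, hθ1, n1, h1⟩ := main_Y t p κ hκ0 hκ2 hκ3
  obtain ⟨θ2, hθ2, n2, h2⟩ := hto κ hκ0 hκ1 hκ2 hκ3
  obtain ⟨n3, h3⟩ := complete t P hP κ hκ0 (by linarith)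
  obtain ⟨η, hη⟩ : ∃ η : ℝ, η = min θ1 (min θ2 (min (κ / 8) 1)) := ⟨_, rfl⟩
  have hη0 : 0 < η := by rw [hη]; positivity
  have hη1 : η ≤ θ1 := by rw [hη]; exact min_le_left _ _
  have hη2 : η ≤ θ2 := by rw [hη]; exact (min_le_right _ _).trans (min_le_left _ _)
  have hη3 : η ≤ κ / 8 := by rw [hη]; exact (min_le_right _ _).trans ((min_le_right _ _).trans (min_le_left _ _))
  have hη4 : η ≤ 1 := by rw [hη]; exact (min_le_right _ _).trans ((min_le_right _ _).trans (min_le_right _ _))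
  obtain ⟨n4, h4⟩ := ev_pow 0 (3 * (B + 1)) (η / 2) (by positivity)
  refine ⟨η / 2, by positivity, n1 + n2 + n3 + n4 + 2, fun N hN ι _ v hv hE => ?_⟩
  have a4 := h4 N (by omega)
  rw [pow_zero, mul_one] at a4
  obtain ⟨N', hN'⟩ : ∃ N', N' = (B + 1) * N := ⟨_, rfl⟩
  have hNN : N ≤ N' := by rw [hN']; exact Nat.le_mul_of_pos_left N (by omega)
  have hN'r : (N' : ℝ) = (B + 1) * N := by rw [hN']; push_cast; ring
  have hN0 : (0 : ℝ) < N := by exact_mod_cast (by omega : 0 < N)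
  have hN1 : (1 : ℝ) ≤ N := by exact_mod_cast (by omega : 1 ≤ N)
  have hN'0 : (0 : ℝ) < N' := by exact_mod_cast (by omega : 0 < N')
  have hN'1 : (1 : ℝ) ≤ N' := by exact_mod_cast (by omega : 1 ≤ N')
  have hNNr : (N : ℝ) ≤ N' := by exact_mod_cast hNN
  have hB0 : (0 : ℝ) ≤ B := Nat.cast_nonneg B
  obtain ⟨Y, hY1, hY2⟩ := exY (2 * (t + 2)) N' (by omega)
  obtain ⟨z, hz⟩ : ∃ z : ℕ, z = ⌈(N' : ℝ) ^ κ⌉₊ := ⟨_, rfl⟩
  have hpar : Par t κ N' Y z := ⟨hY1, hY2, hz⟩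
  have hzz : (N' : ℝ) ^ κ ≤ z := by rw [hz]; exact Nat.le_ceil _
  have hv' : ∀ i, |v i| ≤ N' := by
    intro i
    refine (hv i).trans ?_
    have : B * N ≤ N' := by rw [hN']; exact Nat.mul_le_mul_right N (by omega)
    exact_mod_cast this
  have hNη : (0 : ℝ) < (N : ℝ) ^ (η / 2) := Real.rpow_pos_of_pos hN0 _
  have hBN : (B + 1 : ℝ) ≤ (N : ℝ) ^ (η / 2) := by linarith
  have hE' : (En p v : ℝ) * N' ≤ (N' : ℝ) ^ θ1 * (Fintype.card ι : ℝ) ^ (2 * p) := by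
    have g1 : (N : ℝ) ^ (η / 2) * (N : ℝ) ^ (η / 2) ≤ (N' : ℝ) ^ θ1 := by
      rw [← Real.rpow_add hN0]
      calc (N : ℝ) ^ (η / 2 + η / 2) ≤ (N : ℝ) ^ θ1 := Real.rpow_le_rpow_of_exponent_le hN1 (by linarith)
        _ ≤ _ := Real.rpow_le_rpow hN0.le hNNr hθ1.le
    calc (En p v : ℝ) * N' = (B + 1) * ((En p v : ℝ) * N) := by rw [hN'r]; ring
      _ ≤ (N : ℝ) ^ (η / 2) * ((N : ℝ) ^ (η / 2) * (Fintype.card ι : ℝ) ^ (2 * p)) := by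
          apply mul_le_mul hBN hE (by positivity) (by positivity)
      _ = ((N : ℝ) ^ (η / 2) * (N : ℝ) ^ (η / 2)) * (Fintype.card ι : ℝ) ^ (2 * p) := by ring
      _ ≤ _ := mul_le_mul_of_nonneg_right g1 (by positivity)
  have key := h1 N' (by omega) Y z hpar ι v hv' hE'
  have hpow : 3 * (N' : ℝ) ^ (1 - η) ≤ (N : ℝ) ^ (1 - η / 2) := by
    have g1 : (N' : ℝ) ^ (1 - η) ≤ (B + 1) * (N : ℝ) ^ (1 - η) := by
      rw [hN'r, Real.mul_rpow (by positivity) hN0.le]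
      apply mul_le_mul_of_nonneg_right _ (by positivity)
      calc ((B : ℝ) + 1) ^ (1 - η) ≤ ((B : ℝ) + 1) ^ (1 : ℝ) := Real.rpow_le_rpow_of_exponent_le (by linarith) (by linarith)
        _ = _ := Real.rpow_one _
    calc 3 * (N' : ℝ) ^ (1 - η) ≤ 3 * (B + 1) * (N : ℝ) ^ (1 - η) := by linarith
      _ ≤ (N : ℝ) ^ (η / 2) * (N : ℝ) ^ (1 - η) := mul_le_mul_of_nonneg_right a4 (by positivity)
      _ = _ := by rw [← Real.rpow_add hN0]; congr 1; ring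
  have hsub : (univ.filter (fun i : ι => v i ≠ 0 ∧ ∃ x : ℕ, x ≤ N ∧ (N : ℝ) ^ (1 - η / 2) < |Dr (t + 2) x (v i) - Mf P x (v i)|)) ⊆
      (univ.filter (fun i : ι => ∃ x : ℕ, x ≤ N' ∧ (N' : ℝ) ^ (1 - θ1) <
      |Dr (t + 2) x (v i) - Mn (WE Y t) Y (2 * N' / Y) z x (v i)|)) := by
    intro i hi
    rw [mem_filter] at hi ⊢
    obtain ⟨_, hne, x, hx, hbad⟩ := hi
    refine ⟨mem_univ _, x, hx.trans hNN, ?_⟩
    by_contra hc
    push Not at hc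
    apply absurd hbad
    push Not
    have b2 := h2 N' (by omega) Y z hpar x (hx.trans hNN) (v i) (hv' i)
    have b3 := h3 N' (by omega) z hzz x (hx.trans hNN) (v i) hne (hv' i)
    have e1 : Dr (t + 2) x (v i) - Mf P x (v i) = (Dr (t + 2) x (v i) - Mn (WE Y t) Y (2 * N' / Y) z x (v i)) +
        (Mn (WE Y t) Y (2 * N' / Y) z x (v i) - Mp P z x (v i)) + (Mp P z x (v i) - Mf P x (v i)) := by ring
    rw [e1]
    refine (abs_add_le _ _).trans ?_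
    refine (add_le_add (abs_add_le _ _) le_rfl).trans ?_
    have c1 : (N' : ℝ) ^ (1 - θ1) ≤ (N' : ℝ) ^ (1 - η) := Real.rpow_le_rpow_of_exponent_le hN'1 (by linarith)
    have c2 : (N' : ℝ) ^ (1 - θ2) ≤ (N' : ℝ) ^ (1 - η) := Real.rpow_le_rpow_of_exponent_le hN'1 (by linarith)
    have c3 : (N' : ℝ) ^ (1 - κ / 8) ≤ (N' : ℝ) ^ (1 - η) := Real.rpow_le_rpow_of_exponent_le hN'1 (by linarith)
    linarith
  have hcard : ((univ.filter (fun i : ι => v i ≠ 0 ∧ ∃ x : ℕ, x ≤ N ∧ (N : ℝ) ^ (1 - η / 2) < |Dr (t + 2) x (v i) - Mf P x (v i)|)).card : ℝ) ≤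
      ((univ.filter (fun i : ι => ∃ x : ℕ, x ≤ N' ∧ (N' : ℝ) ^ (1 - θ1) <
      |Dr (t + 2) x (v i) - Mn (WE Y t) Y (2 * N' / Y) z x (v i)|)).card : ℝ) := by exact_mod_cast card_le_card hsub
  refine hcard.trans (key.trans ?_)
  apply mul_le_mul_of_nonneg_right _ (Nat.cast_nonneg _)
  calc (N' : ℝ) ^ (-θ1) ≤ (N : ℝ) ^ (-θ1) := Real.rpow_le_rpow_of_nonpos hN0 hNNr (by linarith)
    _ ≤ _ := Real.rpow_le_rpow_of_exponent_le hN1 (by linarith)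

open Classical in
/-- polynomial families -/
theorem poly_P (t : ℕ) (P : ℕ → ℝ[X]) (hP : HW t P) (f : ℤ[X]) (hf : 1 ≤ f.natDegree) (B : ℕ) : ∃ θ : ℝ, 0 < θ ∧ ∃ M₀ : ℕ, ∀ M : ℕ, M₀ ≤ M →
    ∀ c : ℤ, |c| ≤ B * (M ^ f.natDegree : ℕ) →
    ((univ.filter (fun i : Fin M => c + f.eval (((i : ℕ) + 1 : ℕ) : ℤ) ≠ 0 ∧ ∃ x : ℕ, x ≤ M ^ f.natDegree ∧
      ((M ^ f.natDegree : ℕ) : ℝ) ^ (1 - θ) < |Dr (t + 2) x (c + f.eval (((i : ℕ) + 1 : ℕ) : ℤ)) -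
        Mf P x (c + f.eval (((i : ℕ) + 1 : ℕ) : ℤ))|)).card : ℝ) ≤ (M : ℝ) ^ (1 - θ) := by
  obtain ⟨p, B', m0, hBB, hpoly⟩ := poly_hyp f hf B
  obtain ⟨θ, hθ, n1, h1⟩ := main_P t P hP p B'
  obtain ⟨n2, h2⟩ := ev_pow 1 1 θ hθ
  refine ⟨θ, hθ, m0 + n1 + n2 + 1, fun M hM c hc => ?_⟩
  have hMk : M ≤ M ^ f.natDegree := Nat.le_self_pow (by omega) M
  obtain ⟨hb, hE⟩ := hpoly M (by omega) c hc
  have a2 := h2 (M ^ f.natDegree) (by omega)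
  rw [one_mul] at a2
  have key := h1 (M ^ f.natDegree) (by omega) (Fin M) (fun i : Fin M => c + f.eval (((i : ℕ) + 1 : ℕ) : ℤ)) hb
    (hE.trans (mul_le_mul_of_nonneg_right a2 (by positivity)))
  refine key.trans ?_
  have hM0 : (0 : ℝ) < M := by exact_mod_cast (by omega : 0 < M)
  have hMkr : (M : ℝ) ≤ ((M ^ f.natDegree : ℕ) : ℝ) := by exact_mod_cast hMk
  rw [Fintype.card_fin]
  calc ((M ^ f.natDegree : ℕ) : ℝ) ^ (-θ) * M ≤ (M : ℝ) ^ (-θ) * M :=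
        mul_le_mul_of_nonneg_right (Real.rpow_le_rpow_of_nonpos hM0 hMkr (by linarith)) hM0.le
    _ = (M : ℝ) ^ (-θ) * (M : ℝ) ^ (1 : ℝ) := by rw [Real.rpow_one]
    _ = _ := by rw [← Real.rpow_add hM0]; congr 1; ring

end Pool.Agent.TH212.PS
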